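import Pool.Agent.T9h72.Fish.KidsR

set_option autoImplicit false

namespace Pool.Agent.T9h72.Fish

open List

def Av132 (B : List ℕ) : Prop := ∀ a b c : ℕ, [a, b, c].Sublist B → ¬ (a < c ∧ c < b)

/-- sites for `4132` -/
def V3 (A B : List ℕ) : Prop :=
  (∀ A' x, A = A' ++ [x] → ∀ v ∈ B, v + 1 ≠ x) ∧ Av132 B

theorem V3_snoc (A B : List ℕ) (x : ℕ) : V3 (A ++ [x]) B ↔ (∀ v ∈ B, v + 1 ≠ x) ∧ Av132 B := by
  constructor
  · rintro ⟨h1, h2⟩
    exact ⟨h1 A x rfl, h2⟩
  · rintro ⟨h1, h2⟩
    refine ⟨fun A' y h => ?_, h2⟩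
    have := List.append_inj' h rfl
    simp only [cons.injEq, and_true] at this
    rw [← this.2]
    exact h1

theorem V3_single (B : List ℕ) (x : ℕ) : V3 [x] B ↔ (∀ v ∈ B, v + 1 ≠ x) ∧ Av132 B :=
  V3_snoc [] B x

theorem av132_nil : Av132 [] := by
  intro a b c h
  simp at h

theorem Av132.mono {B B' : List ℕ} (h : B'.Sublist B) (H : Av132 B) : Av132 B' :=
  fun a b c h1 => H a b c (h1.trans h)

theorem av4132_insert (N : ℕ) (A B : List ℕ) (h : ∀ v ∈ A ++ B, v < N) :
    Av4132 (A ++ N :: B) ↔ Av4132 (A ++ B) ∧ Av132 B := by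
  constructor
  · intro H
    refine ⟨fun a b c d h1 => H a b c d (sublist_insert h1), fun b c d h1 h2 => ?_⟩
    refine H N b c d ?_ ⟨h2.1, h2.2, h c ?_⟩
    · exact (cons_sublist_cons.2 h1).trans (sublist_append_right A (N :: B))
    · exact mem_append_right _ (h1.subset (by simp))
  · rintro ⟨H1, H2⟩ a b c d h1 ⟨h2, h3, h4⟩
    have hle : ∀ v ∈ [a, b, c, d], v ≤ N := by
      intro v hv
      have := h1.subset hv
      simp only [mem_append, mem_cons] at this h
      rcases this with h5 | h5 | h5
      · exact (h v (Or.inl h5)).le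
      · exact h5.le
      · exact (h v (Or.inr h5)).le
    have ha := hle a (by simp)
    by_cases haN : a = N
    · subst haN
      refine H2 b c d (sublist_tail_of_insert h1 ?_) ⟨h2, h3⟩
      intro h5
      exact lt_irrefl _ (h a (mem_append_left _ h5))
    · refine H1 a b c d (sublist_of_insert h1 ?_) ⟨h2, h3, h4⟩
      simp only [mem_cons, not_mem_nil, or_false, not_or]
      omega

theorem hV3 (n : ℕ) (A B : List ℕ) (h : (A ++ B).Perm (range (n + 1))) :
    ((Fsh (A ++ (n + 1) :: B) ∧ Av4132 (A ++ (n + 1) :: B)) ↔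
      (Fsh (A ++ B) ∧ Av4132 (A ++ B)) ∧ V3 A B) := by
  have h1 : ∀ v ∈ A ++ B, v < n + 1 := by
    intro v hv
    rw [h.mem_iff] at hv
    simpa using hv
  rw [fsh_insert (n + 1) A B h1, av4132_insert (n + 1) A B h1, V3]
  tauto

open Classical in
/-- labels of the valid sites of `x :: B` after `x` -/
noncomputable def W : ℕ → List ℕ → List Bool
  | _, [] => [true]
  | x, y :: B => (if V3 [x] (y :: B) then [decide (∀ v ∈ y :: B, v < x)] else []) ++ W y B

noncomputable def Wt : List ℕ → List Bool
  | [] => []
  | y :: B => W y B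

open Classical in
theorem W_eq (x : ℕ) (B : List ℕ) :
    W x B = (if V3 [x] B then [decide (∀ v ∈ B, v < x)] else []) ++ Wt B := by
  cases B with
  | nil =>
    rw [if_pos ((V3_single _ _).2 ⟨by simp, av132_nil⟩)]
    simp [W, Wt]
  | cons y B => rfl

/-- `l` has state `s` -/
def Rep3 (l : List ℕ) (s : ℕ × List Bool) : Prop :=
  ∃ L R m, l = L ++ m :: R ∧ (∀ v ∈ L ++ R, v < m) ∧ nvs V3 (L ++ [m]) R = s.1 + 1 ∧ W m R = s.2

theorem av132_cons {N : ℕ} {B : List ℕ} (h : ∀ v ∈ B, v < N) (H : Av132 B) : Av132 (N :: B) := by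
  intro a b c h1 h2
  by_cases haN : a = N
  · have : c ∈ N :: B := h1.subset (by simp)
    rw [mem_cons] at this
    rcases this with h3 | h3
    · omega
    · have := h c h3
      omega
  · cases h1 with
    | cons _ h1 => exact H a b c h1 h2
    | cons_cons _ h1 => exact haN rfl

theorem V3_cons {N : ℕ} {A B : List ℕ} (h : ∀ v ∈ A ++ B, v < N) (H : V3 A B) : V3 A (N :: B) := by
  refine ⟨fun A' x hA v hv => ?_, av132_cons (fun v hv => h v (mem_append_right _ hv)) H.2⟩
  rw [mem_cons] at hv
  rcases hv with rfl | hv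
  · have := h x (by rw [hA]; simp)
    omega
  · exact H.1 A' x hA v hv

theorem rep3_child {N : ℕ} {A B : List ℕ} (h : ∀ v ∈ A ++ B, v < N) (H : V3 A B) :
    Rep3 (A ++ N :: B) (nvs V3 A (N :: B), W N B) := by
  refine ⟨A, B, N, rfl, h, ?_, rfl⟩
  rw [nvs_snoc, if_pos (V3_cons h H)]

theorem nvr_zero (rA T B : List ℕ) (x N v : ℕ) (hv : v ∈ B) (h1 : x < v) (h2 : v < N) :
    nvr V3 rA (T ++ x :: N :: B) = 0 := by
  induction rA generalizing T with
  | nil => rfl
  | cons y rA ih =>
    rw [nvr, if_neg, ← cons_append, ih (y :: T)]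
    rintro ⟨_, h3⟩
    refine h3 x N v ?_ ⟨h1, h2⟩
    refine Sublist.trans ?_ (sublist_cons_self y _)
    refine Sublist.trans ?_ (sublist_append_right T _)
    simpa using hv

theorem nvs_zero (A B : List ℕ) (x N v : ℕ) (hv : v ∈ B) (h1 : x < v) (h2 : v < N) :
    nvs V3 (A ++ [x]) (N :: B) = 0 := by
  have := nvr_zero A.reverse [] B x N v hv h1 h2
  rw [nvs_snoc, if_neg]
  · exact this
  · rintro ⟨_, h3⟩
    refine h3 x N v ?_ ⟨h1, h2⟩
    simpa using hv

theorem V3_insert_iff {A T B : List ℕ} {x N : ℕ} (hA : ∀ v ∈ A, v < N) (hT : ∀ v ∈ T, v < N)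
    (hx : x < N) (hB : ∀ v ∈ B, v < x) :
    V3 A (T ++ x :: N :: B) ↔ V3 A (T ++ x :: B) := by
  have e1 : T ++ x :: N :: B = (T ++ [x]) ++ N :: B := by simp
  have e2 : T ++ x :: B = (T ++ [x]) ++ B := by simp
  constructor
  · rintro ⟨h1, h2⟩
    refine ⟨fun A' z hz v hv => h1 A' z hz v ?_, h2.mono ?_⟩
    · simp only [mem_append, mem_cons] at hv ⊢
      tauto
    · rw [e1, e2]
      exact sublist_insert (Sublist.refl _)
  · rintro ⟨h1, h2⟩
    refine ⟨fun A' z hz v hv => ?_, ?_⟩
    · by_cases hvN : v = N
      · have := hA z (by rw [hz]; simp)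
        omega
      · refine h1 A' z hz v ?_
        simp only [mem_append, mem_cons] at hv ⊢
        tauto
    · intro a b c h3 ⟨h4, h5⟩
      rw [e1] at h3
      have hN1 : N ∉ T ++ [x] := by
        simp only [mem_append, mem_singleton, not_or]
        exact ⟨fun h6 => lt_irrefl _ (hT N h6), by omega⟩
      have hN2 : N ∉ B := by
        intro h6
        have := hB N h6
        omega
      have hle : ∀ v ∈ [a, b, c], v ≤ N := by
        intro v hv
        have := h3.subset hv
        simp only [mem_append, mem_cons, not_mem_nil, or_false] at this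
        rcases this with (h5 | h5) | h5 | h5
        · exact (hT v h5).le
        · omega
        · exact h5.le
        · have := hB v h5
          omega
      have hb := hle b (by simp)
      by_cases hbN : b = N
      · subst hbN
        have h6 : [b, c].Sublist (b :: B) ∧ a ∈ T ++ [x] := by
          rw [sublist_append_iff] at h3
          obtain ⟨l1, l2, h7, h8, h9⟩ := h3
          match l1, h7, h8 with
          | [], h7, h8 =>
            simp only [nil_append] at h7
            rw [← h7] at h9
            cases h9 with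
            | cons _ h9 => exact absurd (h9.subset (by simp)) hN2
            | cons_cons _ h9 => exact absurd (h9.subset (by simp)) hN2
          | [z], h7, h8 =>
            simp only [cons_append, nil_append, cons.injEq] at h7
            rw [← h7.2] at h9
            refine ⟨h9, ?_⟩
            rw [h7.1]
            exact h8.subset (by simp)
          | z :: z' :: l1, h7, h8 =>
            simp only [cons_append, cons.injEq] at h7
            exact absurd (h8.subset (by simp [h7.2.1])) hN1
        have h7 : c ∈ B := (cons_sublist_cons.1 h6.1).subset (by simp)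
        have h8 := h6.2
        rw [mem_append, mem_singleton] at h8
        have h9 := hB c h7
        rcases h8 with h8 | h8
        · refine h2 a x c ?_ ⟨h4, h9⟩
          have : ([a] ++ [x, c]).Sublist (T ++ x :: B) :=
            (singleton_sublist.2 h8).append (cons_sublist_cons.2 (singleton_sublist.2 h7))
          exact this
        · omega
      · refine h2 a b c ?_ ⟨h4, h5⟩
        rw [e2]
        refine sublist_of_insert h3 ?_
        simp only [mem_cons, not_mem_nil, or_false, not_or]
        omega

theorem nvr_same (rA T B : List ℕ) (x N : ℕ) (hA : ∀ v ∈ rA, v < N) (hT : ∀ v ∈ T, v < N)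
    (hx : x < N) (hB : ∀ v ∈ B, v < x) :
    nvr V3 rA (T ++ x :: N :: B) = nvr V3 rA (T ++ x :: B) := by
  induction rA generalizing T with
  | nil => rfl
  | cons y rA ih =>
    have hy : y < N := hA y (by simp)
    have hA' : ∀ v ∈ rA, v < N := fun v hv => hA v (mem_cons_of_mem _ hv)
    have hT' : ∀ v ∈ y :: T, v < N := by
      intro v hv
      rw [mem_cons] at hv
      rcases hv with rfl | hv
      · exact hy
      · exact hT v hv
    have h1 := V3_insert_iff (A := rA.reverse) (T := y :: T) (B := B) (x := x) (N := N)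
      (by simpa using hA') hT' hx hB
    rw [nvr, nvr, ← cons_append, ih (y :: T) hA' hT', ← cons_append]
    congr 1
    by_cases h2 : V3 rA.reverse (y :: T ++ x :: B)
    · rw [if_pos h2, if_pos (h1.2 h2)]
    · rw [if_neg h2, if_neg (fun h3 => h2 (h1.1 h3))]

theorem nvs_same (A B : List ℕ) (x N : ℕ) (hA : ∀ v ∈ A, v < N) (hx : x < N)
    (hB : ∀ v ∈ B, v < x) :
    nvs V3 (A ++ [x]) (N :: B) = nvs V3 (A ++ [x]) B := by
  have h1 := nvr_same A.reverse [] B x N (by simpa using hA) (by simp) hx hB
  have h2 := V3_insert_iff (A := A) (T := []) (B := B) (x := x) (N := N) hA (by simp) hx hB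
  rw [nvs_snoc, nvs_snoc]
  simp only [nil_append] at h1 h2
  rw [nvs, h1, nvs]
  congr 1
  by_cases h3 : V3 A (x :: B)
  · rw [if_pos h3, if_pos (h2.2 h3)]
  · rw [if_neg h3, if_neg (fun h4 => h3 (h2.1 h4))]

theorem right_child {N : ℕ} {A B : List ℕ} {x c : ℕ} (hN : ∀ v ∈ A ++ x :: B, v < N)
    (hm : ∀ v ∈ B, v + 1 ≠ N) (hnd : x ∉ B) (hc : nvs V3 (A ++ [x]) B = c + 1)
    (hV : V3 (A ++ [x]) B) :
    Rep3 (A ++ [x] ++ N :: B)
      (if (∀ v ∈ B, v < x) then c + 1 else 0, true :: Wt B) := by
  classical
  have h1 : ∀ v ∈ (A ++ [x]) ++ B, v < N := by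
    intro v hv
    apply hN
    simpa using hv
  have h2 := rep3_child h1 hV
  have h3 : W N B = true :: Wt B := by
    rw [W_eq, if_pos]
    · have : ∀ v ∈ B, v < N := fun v hv => h1 v (mem_append_right _ hv)
      simpa using this
    · exact (V3_single _ _).2 ⟨hm, hV.2⟩
  have h4 : nvs V3 (A ++ [x]) (N :: B) = if (∀ v ∈ B, v < x) then c + 1 else 0 := by
    by_cases h5 : ∀ v ∈ B, v < x
    · rw [if_pos h5, nvs_same A B x N (fun v hv => hN v (by simp [hv])) (hN x (by simp)) h5, hc]
    · rw [if_neg h5]
      push Not at h5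
      obtain ⟨v, hv, h6⟩ := h5
      have h7 : x ≠ v := fun h => hnd (h ▸ hv)
      exact nvs_zero A B x N v hv (by omega) (hN v (by simp [hv]))
  rw [h3, h4] at h2
  exact h2

theorem right_part (N : ℕ) (A B : List ℕ) (x c : ℕ) (hN : ∀ v ∈ A ++ x :: B, v < N)
    (hm : ∀ v ∈ B, v + 1 ≠ N) (hnd : (x :: B).Nodup) (hc : nvs V3 (A ++ [x]) B = c + 1) :
    Forall₂ Rep3 (kidsR V3 N (A ++ [x]) B) (right3 c (W x B)) := by
  classical
  induction B generalizing A x c with
  | nil =>
    have hV : V3 (A ++ [x]) [] := (V3_snoc _ _ _).2 ⟨by simp, av132_nil⟩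
    have h1 := right_child hN hm (by simp) hc hV
    simp only [kidsR, if_pos hV, W, right3]
    simpa [Wt] using h1
  | cons y B ih =>
    have hN' : ∀ v ∈ (A ++ [x]) ++ y :: B, v < N := by
      intro v hv
      apply hN
      simpa using hv
    have hm' : ∀ v ∈ B, v + 1 ≠ N := fun v hv => hm v (mem_cons_of_mem _ hv)
    have hnd' : (y :: B).Nodup := (nodup_cons.1 hnd).2
    have hc' := nvs_snoc V3 (A ++ [x]) B y
    by_cases hV : V3 (A ++ [x]) (y :: B)
    · rw [if_pos hV, hc] at hc'
      have h1 := right_child hN hm (nodup_cons.1 hnd).1 hc hV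
      have h2 := ih (A ++ [x]) y (c + 1) hN' hm' hnd' hc'
      have hV' : V3 [x] (y :: B) := (V3_single _ _).2 ((V3_snoc _ _ _).1 hV)
      rw [kidsR, if_pos hV, W, if_pos hV', singleton_append, singleton_append, right3]
      refine Forall₂.cons ?_ h2
      simp only [Wt] at h1
      simpa using h1
    · rw [if_neg hV, hc, add_zero] at hc'
      have h2 := ih (A ++ [x]) y c hN' hm' hnd' hc'
      have hV' : ¬ V3 [x] (y :: B) := fun h =>
        hV ((V3_snoc _ _ _).2 ((V3_single _ _).1 h))
      rw [kidsR, if_neg hV, W, if_neg hV', nil_append, nil_append]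
      exact h2

theorem left_child {N m : ℕ} {A B R : List ℕ} (hNm : m < N) (hA : ∀ v ∈ A, v < m)
    (hB : ∀ v ∈ B, v < m) (hR : ∀ v ∈ R, v < m) (hV : V3 A (B ++ m :: R)) (w : List Bool)
    (hW : W N (B ++ m :: R) = w) :
    Rep3 (A ++ N :: (B ++ m :: R)) (0, w) := by
  have h1 : ∀ v ∈ A ++ (B ++ m :: R), v < N := by
    intro v hv
    simp only [mem_append, mem_cons] at hv
    rcases hv with h | h | h | h
    · exact (hA v h).trans hNm
    · exact (hB v h).trans hNm
    · omega
    · exact (hR v h).trans hNm
  have h2 := rep3_child h1 hV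
  have h3 : nvs V3 A (N :: (B ++ m :: R)) = 0 := by
    rcases List.eq_nil_or_concat A with h4 | ⟨A', x, h4⟩
    · rw [h4]; rfl
    · rw [concat_eq_append] at h4
      rw [h4]
      exact nvs_zero A' (B ++ m :: R) x N m (by simp) (hA x (by rw [h4]; simp)) hNm
  rw [h3, hW] at h2
  exact h2

theorem left_part (N m : ℕ) (R A B : List ℕ) (hNm : m + 1 = N) (hA : ∀ v ∈ A, v < m)
    (hB : ∀ v ∈ B, v < m) (hR : ∀ v ∈ R, v < m) :
    ∃ K, kidsR V3 N A (B ++ m :: R) = K ++ kidsR V3 N (A ++ B ++ [m]) R ∧
      nvs V3 (A ++ B ++ [m]) R = nvs V3 A (B ++ m :: R) + K.length ∧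
      Forall₂ Rep3 K.reverse
        ((List.range K.length).map (fun j => (0, List.replicate j false ++ W m R))) ∧
      (∀ A' x, A = A' ++ [x] → W x (B ++ m :: R) = List.replicate K.length false ++ W m R) := by
  classical
  have hWN : ∀ B' : List ℕ, W N (B' ++ m :: R) = Wt (B' ++ m :: R) := by
    intro B'
    rw [W_eq, if_neg, nil_append]
    rintro ⟨h1, _⟩
    exact h1 [] N rfl m (by simp) hNm
  induction B generalizing A with
  | nil =>
    simp only [nil_append, append_nil]
    by_cases hV : V3 A (m :: R)
    · refine ⟨[A ++ N :: (m :: R)], ?_, ?_, ?_, ?_⟩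
      · rw [kidsR, if_pos hV]
      · rw [nvs_snoc, if_pos hV]
        rfl
      · have h1 := left_child (N := N) (B := []) (by omega) hA hB hR hV _ rfl
        rw [hWN] at h1
        simpa [Wt] using h1
      · intro A' x hx
        have hV' : V3 [x] (m :: R) := by
          rw [hx] at hV
          exact (V3_single _ _).2 ((V3_snoc _ _ _).1 hV)
        have hxm : x < m := hA x (by rw [hx]; simp)
        rw [W, if_pos hV']
        congr 1
        simp only [length_singleton, replicate_one, cons.injEq, and_true,
          decide_eq_false_iff_not, not_forall]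
        exact ⟨m, by simp, by omega⟩
    · refine ⟨[], ?_, ?_, ?_, ?_⟩
      · rw [kidsR, if_neg hV]
      · rw [nvs_snoc, if_neg hV]
        rfl
      · simp
      · intro A' x hx
        have hV' : ¬ V3 [x] (m :: R) := by
          intro h
          apply hV
          rw [hx]
          exact (V3_snoc _ _ _).2 ((V3_single _ _).1 h)
        rw [W, if_neg hV']
        rfl
  | cons b B ih =>
    have hB' : ∀ v ∈ B, v < m := fun v hv => hB v (mem_cons_of_mem _ hv)
    have hA' : ∀ v ∈ A ++ [b], v < m := by
      intro v hv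
      rw [mem_append, mem_singleton] at hv
      rcases hv with hv | rfl
      · exact hA v hv
      · exact hB v (by simp)
    obtain ⟨K, h1, h2, h3, h4⟩ := ih (A ++ [b]) hA' hB'
    have e1 : A ++ b :: B = A ++ [b] ++ B := by simp
    by_cases hV : V3 A (b :: (B ++ m :: R))
    · refine ⟨(A ++ N :: b :: (B ++ m :: R)) :: K, ?_, ?_, ?_, ?_⟩
      · rw [cons_append, kidsR, if_pos hV, h1, e1]
        rfl
      · rw [e1, h2, nvs_snoc, if_pos hV, cons_append, length_cons]
        omega
      · rw [reverse_cons, length_cons, range_succ, map_append]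
        refine rel_append h3 ?_
        have h5 := left_child (N := N) (B := b :: B) (by omega) hA hB hR hV _ rfl
        rw [hWN] at h5
        simp only [cons_append, Wt] at h5
        rw [h4 A b rfl] at h5
        simpa using h5
      · intro A' x hx
        have hV' : V3 [x] (b :: (B ++ m :: R)) := by
          rw [hx] at hV
          exact (V3_single _ _).2 ((V3_snoc _ _ _).1 hV)
        have hxm : x < m := hA x (by rw [hx]; simp)
        rw [cons_append, W, if_pos hV', h4 A b rfl, length_cons, replicate_succ]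
        have : decide (∀ v ∈ b :: (B ++ m :: R), v < x) = false := by
          simp only [decide_eq_false_iff_not, not_forall]
          exact ⟨m, by simp, by omega⟩
        rw [this]
        rfl
    · refine ⟨K, ?_, ?_, h3, ?_⟩
      · rw [cons_append, kidsR, if_neg hV, h1, e1]
        rfl
      · rw [e1, h2, nvs_snoc, if_neg hV, cons_append]
        omega
      · intro A' x hx
        have hV' : ¬ V3 [x] (b :: (B ++ m :: R)) := by
          intro h
          apply hV
          rw [hx]
          exact (V3_snoc _ _ _).2 ((V3_single _ _).1 h)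
        rw [cons_append, W, if_neg hV', h4 A b rfl]
        rfl

/-- C3 -/
theorem card3 (n : ℕ) :
    {l : List ℕ | l.Perm (List.range (n + 1)) ∧ (Fsh l ∧ Av4132 l)}.ncard
      = cnt ch3 n (0, [true]) := by
  classical
  refine ncard_tree (fun l => Fsh l ∧ Av4132 l) V3 ch3 Rep3 (0, [true]) ?_ hV3 ?_ ?_ n
  · refine ⟨fsh_single 0, ?_⟩
    intro a b c d h
    have := h.length_le
    simp at this
  · refine ⟨[], [], 0, rfl, by simp, ?_, rfl⟩
    rw [nvs_snoc, if_pos]
    · rfl
    · refine ⟨?_, ?_⟩
      · intro A' x h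
        simp at h
      · intro a b c h
        have := h.length_le
        simp at this
  · rintro n l ⟨a, w⟩ h1 h2 ⟨L, R, m, rfl, h3, h4, h5⟩
    simp only at h4 h5
    have hlen : (L ++ m :: R).length = n + 1 := by rw [h1.length_eq, length_range]
    have hm : m = n := by
      have h6 : m ∈ range (n + 1) := by rw [← h1.mem_iff]; simp
      have h7 : n ∈ L ++ m :: R := by rw [h1.mem_iff]; simp
      rw [mem_range] at h6
      by_contra h8
      have h9 : n ∈ L ++ R := by
        simp only [mem_append, mem_cons] at h7 ⊢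
        rcases h7 with h7 | h7 | h7
        · exact Or.inl h7
        · exact absurd h7.symm h8
        · exact Or.inr h7
      have := h3 n h9
      omega
    have hL : ∀ v ∈ L, v < m := fun v hv => h3 v (mem_append_left _ hv)
    have hR : ∀ v ∈ R, v < m := fun v hv => h3 v (mem_append_right _ hv)
    obtain ⟨K, k1, k2, k3, _⟩ := left_part (n + 1) m R [] L (by omega) (by simp) hL hR
    simp only [nil_append, nvs_nil, zero_add] at k1 k2
    have hK : K.length = a + 1 := by omega
    refine ⟨K.reverse ++ kidsR V3 (n + 1) (L ++ [m]) R, ?_, ?_⟩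
    · rw [kids_eq, hlen, k1]
      exact (reverse_perm K).append_right _
    · unfold ch3
      simp only
      rw [← h5]
      refine rel_append ?_ ?_
      · rw [hK] at k3
        exact k3
      · refine right_part (n + 1) L R m a ?_ ?_ ?_ h4
        · intro v hv
          simp only [mem_append, mem_cons] at hv
          rcases hv with hv | hv | hv
          · have := hL v hv
            omega
          · omega
          · have := hR v hv
            omega
        · intro v hv
          have := hR v hv
          omega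
        · have := (h1.nodup_iff).2 (nodup_range)
          exact (nodup_append.1 this).2.1

end Pool.Agent.T9h72.Fish
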