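import Pool.Agent.T9h72.Fish.Defs

set_option autoImplicit false

/-! Generating functions of generating trees; substitutions in power series. -/

namespace Pool.Agent.T9h72.Fish

open PowerSeries Finset

/-- generating function of the subtree of `s` -/
noncomputable def gf {S : Type} (ch : S → List S) (s : S) : PowerSeries ℤ :=
  PowerSeries.mk (fun n => (cnt ch n s : ℤ))

theorem coeff_sum_list {S : Type} (L : List S) (f : S → PowerSeries ℤ) (n : ℕ) :
    coeff n (L.map f).sum = (L.map (fun s => coeff n (f s))).sum := by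
  induction L with
  | nil => simp
  | cons a L ih => simp [ih]

theorem gf_rec {S : Type} (ch : S → List S) (s : S) :
    gf ch s = 1 + X * ((ch s).map (gf ch)).sum := by
  ext n
  cases n with
  | zero => simp [gf, cnt]
  | succ n =>
    rw [map_add, coeff_succ_X_mul, coeff_sum_list, gf, coeff_mk, cnt]
    have : coeff (n + 1) (1 : PowerSeries ℤ) = 0 := by
      rw [PowerSeries.coeff_one]; simp
    rw [this, zero_add]
    have h2 : (fun s => coeff n (gf ch s)) = fun s => (cnt ch n s : ℤ) := by
      ext s; simp [gf]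
    rw [h2]
    induction ch s with
    | nil => simp
    | cons a L ih => simp at ih ⊢; exact ih

theorem gf_unique {S : Type} (ch : S → List S) (c y y' : S → PowerSeries ℤ)
    (h : ∀ s, y s = c s + X * ((ch s).map y).sum) (h' : ∀ s, y' s = c s + X * ((ch s).map y').sum)
    (s : S) : y s = y' s := by
  have key : ∀ n s, coeff n (y s) = coeff n (y' s) := by
    intro n
    induction n with
    | zero =>
      intro s
      rw [h s, h' s]
      simp
    | succ n ih =>
      intro s
      rw [h s, h' s, map_add, map_add, coeff_succ_X_mul, coeff_succ_X_mul, coeff_sum_list,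
        coeff_sum_list]
      congr 2
      apply List.map_congr_left
      intro a _
      exact ih a
  ext n
  exact key n s

section Ev

theorem sum_antidiag_swap {A : Type} [AddCommMonoid A] (F : ℕ → ℕ → ℕ → ℕ → A) (m : ℕ) :
    (∑ p ∈ antidiagonal m, ∑ q ∈ antidiagonal p.1, ∑ r ∈ antidiagonal p.2, F q.1 q.2 r.1 r.2)
      = ∑ p ∈ antidiagonal m, ∑ q ∈ antidiagonal p.1, ∑ r ∈ antidiagonal p.2,
        F q.1 r.1 q.2 r.2 := by
  have L : ∀ G : ℕ × ℕ → ℕ × ℕ → A,
      (∑ p ∈ antidiagonal m, ∑ q ∈ antidiagonal p.1, ∑ r ∈ antidiagonal p.2, G q r)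
        = ∑ x ∈ (antidiagonal m).sigma (fun p => antidiagonal p.1 ×ˢ antidiagonal p.2),
          G x.2.1 x.2.2 := by
    intro G
    rw [Finset.sum_sigma]
    simp [Finset.sum_product]
  rw [L (fun q r => F q.1 q.2 r.1 r.2), L (fun q r => F q.1 r.1 q.2 r.2)]
  refine Finset.sum_nbij'
      (fun x => ⟨(x.2.1.1 + x.2.2.1, x.2.1.2 + x.2.2.2), ((x.2.1.1, x.2.2.1), (x.2.1.2, x.2.2.2))⟩)
      (fun x => ⟨(x.2.1.1 + x.2.2.1, x.2.1.2 + x.2.2.2), ((x.2.1.1, x.2.2.1), (x.2.1.2, x.2.2.2))⟩)
      ?_ ?_ ?_ ?_ ?_
  · rintro ⟨⟨a, b⟩, ⟨c, d⟩, e, f⟩ h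
    simp only [mem_sigma, mem_product, HasAntidiagonal.mem_antidiagonal] at h ⊢
    refine ⟨by omega, ?_, ?_⟩ <;> trivial
  · rintro ⟨⟨a, b⟩, ⟨c, d⟩, e, f⟩ h
    simp only [mem_sigma, mem_product, HasAntidiagonal.mem_antidiagonal] at h ⊢
    refine ⟨by omega, ?_, ?_⟩ <;> trivial
  · rintro ⟨⟨a, b⟩, ⟨c, d⟩, e, f⟩ h
    simp only [mem_sigma, mem_product, HasAntidiagonal.mem_antidiagonal] at h ⊢
    obtain ⟨h1, rfl, rfl⟩ := h
    rfl
  · rintro ⟨⟨a, b⟩, ⟨c, d⟩, e, f⟩ h
    simp only [mem_sigma, mem_product, HasAntidiagonal.mem_antidiagonal] at h ⊢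
    obtain ⟨h1, rfl, rfl⟩ := h
    rfl
  · rintro ⟨⟨a, b⟩, ⟨c, d⟩, e, f⟩ h
    rfl

variable {A : Type} [CommRing A]

/-- evaluation of the outer variable at the inner variable -/
noncomputable def evX : PowerSeries (PowerSeries A) →+* PowerSeries A where
  toFun f := PowerSeries.mk (fun m => ∑ p ∈ antidiagonal m, coeff p.2 (coeff p.1 f))
  map_zero' := by ext m; simp
  map_add' f g := by
    ext m
    simp [Finset.sum_add_distrib]
  map_one' := by
    ext m
    rw [coeff_mk]
    have h1 : ∀ p ∈ antidiagonal m, coeff p.2 (coeff p.1 (1 : PowerSeries (PowerSeries A)))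
        = if p = (0, m) then coeff m (1 : PowerSeries A) else 0 := by
      intro p hp
      rw [HasAntidiagonal.mem_antidiagonal] at hp
      rw [PowerSeries.coeff_one]
      by_cases h : p.1 = 0
      · have h2 : p = (0, m) := by
          ext
          · exact h
          · simp only; omega
        rw [if_pos h, if_pos h2, h2]
      · rw [if_neg h, if_neg (fun h2 => h (by rw [h2])), map_zero]
    rw [Finset.sum_congr rfl h1, Finset.sum_ite_eq' (antidiagonal m) (0, m)]
    simp
  map_mul' f g := by
    ext m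
    simp only [coeff_mk, coeff_mul, map_sum, Finset.sum_mul_sum]
    exact sum_antidiag_swap (fun a b c d => coeff c (coeff a f) * coeff d (coeff b g)) m

theorem coeff_evX (f : PowerSeries (PowerSeries A)) (m : ℕ) :
    coeff m (evX f) = ∑ p ∈ antidiagonal m, coeff p.2 (coeff p.1 f) := by
  have h : evX f = PowerSeries.mk (fun m => ∑ p ∈ antidiagonal m, coeff p.2 (coeff p.1 f)) := rfl
  rw [h, PowerSeries.coeff_mk]

theorem evX_C (s : PowerSeries A) : evX (C s) = s := by
  ext m
  rw [coeff_evX]
  have h1 : ∀ p ∈ antidiagonal m, coeff p.2 (coeff p.1 (C s : PowerSeries (PowerSeries A)))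
      = if p = (0, m) then coeff m s else 0 := by
    intro p hp
    rw [HasAntidiagonal.mem_antidiagonal] at hp
    rw [PowerSeries.coeff_C]
    by_cases h : p.1 = 0
    · have h2 : p = (0, m) := by
        ext
        · exact h
        · simp only; omega
      rw [if_pos h, if_pos h2, h2]
    · rw [if_neg h, if_neg (fun h2 => h (by rw [h2])), map_zero]
  rw [Finset.sum_congr rfl h1, Finset.sum_ite_eq' (antidiagonal m) (0, m)]
  simp

theorem evX_X : evX (X : PowerSeries (PowerSeries A)) = X := by
  ext m
  rw [coeff_evX]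
  cases m with
  | zero => simp
  | succ m =>
    have h1 : ∀ p ∈ antidiagonal (m + 1), coeff p.2 (coeff p.1 (X : PowerSeries (PowerSeries A)))
        = if p = (1, m) then coeff m (1 : PowerSeries A) else 0 := by
      intro p hp
      rw [HasAntidiagonal.mem_antidiagonal] at hp
      rw [PowerSeries.coeff_X]
      by_cases h : p.1 = 1
      · have h2 : p = (1, m) := by
          ext
          · exact h
          · simp only; omega
        rw [if_pos h, if_pos h2, h2]
      · rw [if_neg h, if_neg (fun h2 => h (by rw [h2])), map_zero]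
    rw [Finset.sum_congr rfl h1, Finset.sum_ite_eq' (antidiagonal (m + 1)) (1, m)]
    rw [PowerSeries.coeff_X, PowerSeries.coeff_one]
    have : (1, m) ∈ antidiagonal (m + 1) := by
      rw [HasAntidiagonal.mem_antidiagonal]; omega
    rw [if_pos this]
    by_cases h : m = 0
    · simp [h]
    · rw [if_neg h, if_neg (by omega)]

/-- exchange of the two variables -/
noncomputable def swapXY : PowerSeries (PowerSeries A) →+* PowerSeries (PowerSeries A) where
  toFun f := PowerSeries.mk (fun n => PowerSeries.mk (fun u => coeff n (coeff u f)))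
  map_zero' := by ext n u; simp
  map_add' f g := by ext n u; simp
  map_one' := by
    ext n u
    simp only [coeff_mk, PowerSeries.coeff_one]
    by_cases h : u = 0 <;> by_cases h' : n = 0 <;> simp [h, h', PowerSeries.coeff_one]
  map_mul' f g := by
    ext n u
    simp only [coeff_mk, coeff_mul, map_sum]
    rw [Finset.sum_comm]

theorem coeff_swapXY (f : PowerSeries (PowerSeries A)) (n u : ℕ) :
    coeff u (coeff n (swapXY f)) = coeff n (coeff u f) := by
  have h : swapXY f = PowerSeries.mk (fun n => PowerSeries.mk (fun u => coeff n (coeff u f))) := rfl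
  rw [h, PowerSeries.coeff_mk, PowerSeries.coeff_mk]

theorem swapXY_C (s : PowerSeries A) : swapXY (C s) = PowerSeries.map (C (R := A)) s := by
  ext n u
  rw [coeff_swapXY, PowerSeries.coeff_C, PowerSeries.coeff_map, PowerSeries.coeff_C]
  by_cases h : u = 0 <;> simp [h]

theorem swapXY_X : swapXY (X : PowerSeries (PowerSeries A)) = C X := by
  ext n u
  rw [coeff_swapXY, PowerSeries.coeff_X, PowerSeries.coeff_C]
  by_cases h : u = 1 <;> by_cases h' : n = 0 <;>
    simp [h, h', PowerSeries.coeff_one, PowerSeries.coeff_X]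

end Ev

end Pool.Agent.T9h72.Fish
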