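import Mathlib

set_option autoImplicit false

/-! Definitions for MP_e853da_co (Fishburn permutations avoiding 3214, 4132, 4213).
Permutations of `{0, …, n-1}` are lists `l` with `l.Perm (List.range n)` (one-line notation). -/

namespace Pool.Agent.T9h72.Fish

/-- `l` is a Fishburn list: if `x` and `y` are adjacent entries with `x < y`, then `x - 1` does not
occur to the right of `y`. -/
def Fsh (l : List ℕ) : Prop :=
  ∀ A x y B, l = A ++ x :: y :: B → x < y → ∀ v ∈ B, v + 1 ≠ x

/-- the Fishburn condition for the inverse: for every descent `x y` of adjacent entries, `y + 1` is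
`x` or occurs to the left of `x`. -/
def FshI (l : List ℕ) : Prop :=
  ∀ A x y B, l = A ++ x :: y :: B → y < x → y + 1 = x ∨ y + 1 ∈ A

def Av3214 (l : List ℕ) : Prop :=
  ∀ a b c d : ℕ, [a, b, c, d].Sublist l → ¬ (c < b ∧ b < a ∧ a < d)

def Av4132 (l : List ℕ) : Prop :=
  ∀ a b c d : ℕ, [a, b, c, d].Sublist l → ¬ (b < d ∧ d < c ∧ c < a)

def Av4213 (l : List ℕ) : Prop :=
  ∀ a b c d : ℕ, [a, b, c, d].Sublist l → ¬ (c < b ∧ b < d ∧ d < a)

/-- number of descendants at depth `n` in the generating tree with children lists `ch` -/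
def cnt {S : Type} (ch : S → List S) : ℕ → S → ℕ
  | 0, _ => 1
  | n + 1, s => ((ch s).map (cnt ch n)).sum

/-- right part of the children in the tree of `4132` -/
def right3 : ℕ → List Bool → List (ℕ × List Bool)
  | _, [] => []
  | c, b :: w => (if b then c + 1 else 0, true :: w) :: right3 (c + 1) w

/-- tree of `4132` (insertion of the maximum), root `(0, [true])` -/
def ch3 (s : ℕ × List Bool) : List (ℕ × List Bool) :=
  (List.range (s.1 + 1)).map (fun j => (0, List.replicate j false ++ s.2)) ++ right3 s.1 s.2

/-- touches of the stack in the tree of `4213` -/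
def touch4 : List (ℕ × ℕ) → List (ℕ × Bool × List (ℕ × ℕ))
  | [] => []
  | (x, b) :: st => (List.range x).map (fun p => (b + (p + 1), true, (x - (p + 1), 1) :: st))
      ++ touch4 st

/-- tree of `4213` (insertion of the maximum), root `(1, true, [])` -/
def ch4 (s : ℕ × Bool × List (ℕ × ℕ)) : List (ℕ × Bool × List (ℕ × ℕ)) :=
  (List.range s.1).map (fun j => (j + 1, false,
      (s.1 - (j + 1) + (if s.2.1 then 1 else 0), 0) :: s.2.2))
    ++ (if s.2.1 then [(s.1 + 1, true, s.2.2)] else []) ++ touch4 s.2.2

/-- push a block, dropping empty blocks -/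
def push1 (b : ℕ) (σ : List ℕ) : List ℕ := if b = 0 then σ else b :: σ

/-- moves into the lower blocks in the tree of `3214` -/
def low1 : List ℕ → List (List ℕ × ℕ)
  | [] => []
  | b :: σ => (List.range b).map (fun p => (push1 p σ, b - p)) ++ low1 σ

/-- moves into the blocks in the tree of `3214` -/
def blk1 : List ℕ → List (List ℕ × ℕ)
  | [] => []
  | b :: σ => (List.range b).map (fun p => (push1 p σ, b - p + 1)) ++ low1 σ

/-- tree of `3214` (appending a last value), root `([], 0)`. The head of the list is the top block. -/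
def ch1 (s : List ℕ × ℕ) : List (List ℕ × ℕ) :=
  s :: (s.1, 1) :: (List.range s.2).map (fun i => ((i + 1) :: s.1, s.2 - (i + 1))) ++ blk1 s.1

end Pool.Agent.T9h72.Fish
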