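import Pool.Agent.T9h72.Fish.Tree

set_option autoImplicit false

namespace Pool.Agent.T9h72.Fish

open List

open Classical in
/-- insertions of `N` at the allowed sites `(A ++ B', B'')` with `B = B' ++ B''` -/
noncomputable def kidsR (V : List ℕ → List ℕ → Prop) (N : ℕ) : List ℕ → List ℕ → List (List ℕ)
  | A, [] => if V A [] then [A ++ [N]] else []
  | A, b :: B => (if V A (b :: B) then [A ++ N :: b :: B] else []) ++ kidsR V N (A ++ [b]) B

open Classical in
/-- number of allowed sites strictly to the left of the site `(rA.reverse, S)` -/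
noncomputable def nvr (V : List ℕ → List ℕ → Prop) : List ℕ → List ℕ → ℕ
  | [], _ => 0
  | x :: rA, S => nvr V rA (x :: S) + if V rA.reverse (x :: S) then 1 else 0

/-- number of allowed sites strictly to the left of the site `(A, S)` -/
noncomputable def nvs (V : List ℕ → List ℕ → Prop) (A S : List ℕ) : ℕ := nvr V A.reverse S

@[simp] theorem nvs_nil (V : List ℕ → List ℕ → Prop) (S : List ℕ) : nvs V [] S = 0 := rfl

open Classical in
theorem nvs_snoc (V : List ℕ → List ℕ → Prop) (A S : List ℕ) (x : ℕ) :
    nvs V (A ++ [x]) S = nvs V A (x :: S) + if V A (x :: S) then 1 else 0 := by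
  unfold nvs
  rw [reverse_append, reverse_singleton, singleton_append, nvr, reverse_reverse]

open Classical in
theorem kids_eq_aux (V : List ℕ → List ℕ → Prop) (N : ℕ) (A B : List ℕ) :
    ((splits B).filter (fun s => decide (V (A ++ s.1) s.2))).map (fun s => (A ++ s.1) ++ N :: s.2)
      = kidsR V N A B := by
  induction B generalizing A with
  | nil =>
    simp only [splits, kidsR]
    by_cases h : V A [] <;> simp [h]
  | cons b B ih =>
    rw [splits, kidsR, ← ih (A ++ [b])]
    by_cases h : V A (b :: B) <;>
      simp [h, filter_map, Function.comp_def]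

theorem kids_eq (V : List ℕ → List ℕ → Prop) (l : List ℕ) :
    kids V l = kidsR V l.length [] l := by
  classical
  rw [← kids_eq_aux, kids]
  simp

theorem fsh_cons_cons (x y : ℕ) (B : List ℕ) :
    Fsh (x :: y :: B) ↔ (x < y → ∀ v ∈ B, v + 1 ≠ x) ∧ Fsh (y :: B) := by
  constructor
  · intro h
    refine ⟨fun h1 => h [] x y B rfl h1, ?_⟩
    intro A a b B' h1 h2
    exact h (x :: A) a b B' (by rw [h1]; rfl) h2
  · rintro ⟨h1, h2⟩ A a b B' h3 h4
    cases A with
    | nil =>
      simp only [nil_append, cons.injEq] at h3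
      obtain ⟨rfl, rfl, rfl⟩ := h3
      exact h1 h4
    | cons c A =>
      simp only [cons_append, cons.injEq] at h3
      exact h2 A a b B' h3.2 h4

theorem fsh_nil : Fsh [] := by
  intro A x y B h
  simp at h

theorem fsh_single (x : ℕ) : Fsh [x] := by
  intro A a b B h
  have := congrArg List.length h
  simp at this
  omega

theorem fsh_insert (N : ℕ) (A B : List ℕ) (h : ∀ v ∈ A ++ B, v < N) :
    Fsh (A ++ N :: B) ↔ Fsh (A ++ B) ∧ (∀ A' x, A = A' ++ [x] → ∀ v ∈ B, v + 1 ≠ x) := by
  induction A with
  | nil =>
    simp only [nil_append]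
    have h1 : (∀ (A' : List ℕ) (x : ℕ), [] = A' ++ [x] → ∀ v ∈ B, v + 1 ≠ x) := by
      intro A' x h2
      simp at h2
    cases B with
    | nil => exact ⟨fun _ => ⟨fsh_nil, h1⟩, fun _ => fsh_single N⟩
    | cons y B =>
      rw [fsh_cons_cons]
      have h2 : ¬ N < y := by
        have := h y (by simp)
        omega
      exact ⟨fun h3 => ⟨h3.2, h1⟩, fun h3 => ⟨fun h4 => absurd h4 h2, h3.1⟩⟩
  | cons x A ih =>
    have ih := ih (fun v hv => h v (by
      simp only [mem_append, cons_append, mem_cons] at hv ⊢
      tauto))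
    cases A with
    | nil =>
      simp only [nil_append, cons_append] at ih h ⊢
      rw [fsh_cons_cons]
      have hx : x < N := h x (by simp)
      have e1 : (∀ (A' : List ℕ) (x_1 : ℕ), [x] = A' ++ [x_1] → ∀ v ∈ B, v + 1 ≠ x_1) ↔
          ∀ v ∈ B, v + 1 ≠ x := by
        constructor
        · intro h1
          exact h1 [] x rfl
        · intro h1 A' z h2
          cases A' with
          | nil =>
            simp only [nil_append, cons.injEq, and_true] at h2
            rw [← h2]; exact h1
          | cons _ _ => simp at h2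
      rw [e1]
      cases B with
      | nil => simp [fsh_single]
      | cons y B =>
        rw [fsh_cons_cons, fsh_cons_cons]
        have h2 : ¬ N < y := by
          have := h y (by simp)
          omega
        constructor
        · rintro ⟨h3, _, h4⟩
          refine ⟨⟨fun _ v hv => h3 hx v (mem_cons_of_mem _ hv), h4⟩, h3 hx⟩
        · rintro ⟨⟨h3, h4⟩, h5⟩
          exact ⟨fun _ => h5, fun h6 => absurd h6 h2, h4⟩
    | cons x' A =>
      simp only [cons_append] at ih h ⊢
      rw [fsh_cons_cons, fsh_cons_cons, ih]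
      have hx : x < N := h x (by simp)
      have e1 : (∀ (A' : List ℕ) (x_1 : ℕ), x :: x' :: A = A' ++ [x_1] → ∀ v ∈ B, v + 1 ≠ x_1) ↔
          (∀ (A' : List ℕ) (x_1 : ℕ), x' :: A = A' ++ [x_1] → ∀ v ∈ B, v + 1 ≠ x_1) := by
        constructor
        · intro h1 A' z h2
          exact h1 (x :: A') z (by rw [h2]; rfl)
        · intro h1 A' z h2
          cases A' with
          | nil => simp at h2
          | cons w A' =>
            simp only [cons_append, cons.injEq] at h2
            exact h1 A' z h2.2
      rw [e1]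
      constructor
      · rintro ⟨h3, h4, h5⟩
        refine ⟨⟨fun h6 v hv => h3 h6 v ?_, h4⟩, h5⟩
        simp only [mem_append, mem_cons] at hv ⊢
        tauto
      · rintro ⟨⟨h3, h4⟩, h5⟩
        refine ⟨fun h6 v hv => ?_, h4, h5⟩
        simp only [mem_append, mem_cons] at hv h3
        rcases hv with hv | hv | hv
        · exact h3 h6 v (Or.inl hv)
        · omega
        · exact h3 h6 v (Or.inr hv)

theorem sublist_of_insert {N : ℕ} {A B l : List ℕ} (h : l.Sublist (A ++ N :: B)) (hN : N ∉ l) :
    l.Sublist (A ++ B) := by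
  rw [sublist_append_iff] at h
  obtain ⟨l1, l2, rfl, h1, h2⟩ := h
  refine h1.append ?_
  cases h2 with
  | cons _ h2 => exact h2
  | cons_cons _ h2 => simp at hN

theorem sublist_insert {N : ℕ} {A B l : List ℕ} (h : l.Sublist (A ++ B)) :
    l.Sublist (A ++ N :: B) :=
  h.trans ((Sublist.refl A).append (sublist_cons_self N B))

theorem sublist_tail_of_insert {N : ℕ} {A B l : List ℕ} (h : (N :: l).Sublist (A ++ N :: B))
    (hN : N ∉ A) : l.Sublist B := by
  rw [sublist_append_iff] at h
  obtain ⟨l1, l2, h0, h1, h2⟩ := h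
  cases l1 with
  | nil =>
    simp only [nil_append] at h0
    rw [← h0] at h2
    exact cons_sublist_cons.1 h2
  | cons x l1 =>
    simp only [cons_append, cons.injEq] at h0
    exact absurd (h1.subset (by simp [h0.1])) hN

theorem sublist_head_of_insert {N : ℕ} {A B l : List ℕ} (h : (l ++ [N]).Sublist (A ++ N :: B))
    (hN : N ∉ B) : l.Sublist A := by
  have h1 : (N :: l.reverse).Sublist (B.reverse ++ N :: A.reverse) := by
    simpa using h.reverse
  have h2 := sublist_tail_of_insert h1 (by simpa using hN)
  exact reverse_sublist.1 h2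

end Pool.Agent.T9h72.Fish
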