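import Pool.Agent.T9h72.Fish.Alg0

set_option autoImplicit false

/-! The functional equation of the tree `ch3`. -/

namespace Pool.Agent.T9h72.Fish

open PowerSeries Finset

section

variable {B : Type} [CommRing B]

/-- sum of `φ` over the nodes at depth `n` -/
def sumAt (φ : ℕ × List Bool → B) : ℕ → ℕ × List Bool → B
  | 0, s => φ s
  | n + 1, s => ((ch3 s).map (sumAt φ n)).sum

/-- sum of `φ` over the children -/
def nxt (φ : ℕ × List Bool → B) (s : ℕ × List Bool) : B := ((ch3 s).map φ).sum

theorem sumAt_succ (φ : ℕ × List Bool → B) (n : ℕ) (s : ℕ × List Bool) :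
    sumAt φ (n + 1) s = sumAt (nxt φ) n s := by
  induction n generalizing s with
  | zero => rfl
  | succ n ih =>
    rw [sumAt]
    conv_rhs => rw [sumAt]
    congr 2
    ext1 c
    exact ih c

theorem sumAt_add (φ ψ : ℕ × List Bool → B) (n : ℕ) (s : ℕ × List Bool) :
    sumAt (fun s => φ s + ψ s) n s = sumAt φ n s + sumAt ψ n s := by
  induction n generalizing s with
  | zero => rfl
  | succ n ih =>
    rw [sumAt, sumAt, sumAt, ← List.sum_map_add]
    congr 2
    ext1 c
    exact ih c

theorem sumAt_mul (b : B) (φ : ℕ × List Bool → B) (n : ℕ) (s : ℕ × List Bool) :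
    sumAt (fun s => b * φ s) n s = b * sumAt φ n s := by
  induction n generalizing s with
  | zero => rfl
  | succ n ih =>
    rw [sumAt, sumAt, ← List.sum_map_mul_left]
    congr 2
    ext1 c
    exact ih c

/-- generating function of the sums of `φ` over the nodes -/
noncomputable def E3 (φ : ℕ × List Bool → B) : PowerSeries B :=
  PowerSeries.mk (fun n => sumAt φ n (0, [true]))

theorem E3_add (φ ψ : ℕ × List Bool → B) : E3 (fun s => φ s + ψ s) = E3 φ + E3 ψ := by
  ext n; simp [E3, sumAt_add]

theorem E3_mul (b : B) (φ : ℕ × List Bool → B) : E3 (fun s => b * φ s) = C b * E3 φ := by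
  ext n; simp [E3, sumAt_mul]

theorem E3_rec (φ : ℕ × List Bool → B) : E3 φ = C (φ (0, [true])) + X * E3 (nxt φ) := by
  ext n
  cases n with
  | zero => simp [E3, sumAt]
  | succ n =>
    rw [map_add, PowerSeries.coeff_succ_X_mul, PowerSeries.coeff_C, if_neg (by omega), zero_add, E3,
      coeff_mk, sumAt_succ, E3, coeff_mk]

/-- sum over the letters `true` of `w`, the prefix up to this letter being the argument of `h` -/
def Mk (r : B) : (List Bool → B) → List Bool → B
  | _, [] => 0
  | h, b :: w => (if b then r ^ (w.length + 1) * h [true] else 0) + Mk r (fun p => h (b :: p)) w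

def kap (r : B) : List Bool → B
  | [] => 0
  | b :: w => (if b then 0 else r ^ (w.length + 1)) + kap r w

theorem Mk_add (r : B) (h h' : List Bool → B) (w : List Bool) :
    Mk r (fun p => h p + h' p) w = Mk r h w + Mk r h' w := by
  induction w generalizing h h' with
  | nil => simp [Mk]
  | cons b w ih =>
    rw [Mk, Mk, Mk, ih]
    split_ifs <;> ring

theorem Mk_zero (r : B) (w : List Bool) : Mk r (fun _ => (0 : B)) w = 0 := by
  induction w with
  | nil => rfl
  | cons b w ih => rw [Mk, ih]; simp

theorem Mk_sum {T : Type} (r : B) (L : List T) (h : T → List Bool → B) (w : List Bool) :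
    Mk r (fun p => (L.map (fun c => h c p)).sum) w = (L.map (fun c => Mk r (h c) w)).sum := by
  induction L with
  | nil => simp [Mk_zero]
  | cons a L ih =>
    simp only [List.map_cons, List.sum_cons]
    rw [Mk_add, ih]

/-- the marked version of `φ` -/
def mark (r : B) (φ : ℕ × List Bool → B) (s : ℕ × List Bool) : B :=
  Mk r (fun p => φ (s.1, p)) s.2

theorem mark_left (r : B) (φ : List Bool → B) (j : ℕ) (w : List Bool) :
    Mk r φ (List.replicate j false ++ w) = Mk r (fun p => φ (List.replicate j false ++ p)) w := by
  induction j generalizing φ with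
  | zero => simp
  | succ j ih =>
    rw [List.replicate_succ, List.cons_append, Mk, ih]
    simp

theorem mark_right (r : B) (H : ℕ × List Bool → B) (a : ℕ) (w : List Bool) :
    ((right3 a w).map (mark r H)).sum
      = Mk r (fun p => ((right3 a p).map H).sum) w + kap r w * H (0, [true]) := by
  induction w generalizing a with
  | nil => simp [right3, Mk, kap]
  | cons b w ih =>
    rw [right3, List.map_cons, List.sum_cons, ih, Mk, kap]
    have h1 : ∀ p, ((right3 a (b :: p)).map H).sum
        = H (if b = true then a + 1 else 0, true :: p) + ((right3 (a + 1) p).map H).sum := by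
      intro p
      rw [right3, List.map_cons, List.sum_cons]
    simp only [h1]
    rw [Mk_add, mark, Mk]
    simp only [right3, List.map_cons, List.map_nil, List.sum_cons, List.sum_nil, add_zero]
    cases b
    · simp
      ring
    · simp
      ring

theorem nxt_mark (r : B) (H : ℕ × List Bool → B) (s : ℕ × List Bool) :
    nxt (mark r H) s = mark r (nxt H) s + kap r s.2 * H (0, [true]) := by
  obtain ⟨a, w⟩ := s
  rw [nxt, ch3, List.map_append, List.sum_append, mark_right, mark]
  simp only [nxt, ch3, List.map_append, List.sum_append, List.map_map]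
  rw [Mk_add, Mk_sum]
  have h2 : (List.map (mark r H ∘ fun j => (0, List.replicate j false ++ w)) (List.range (a + 1)))
      = List.map (fun j => Mk r (fun p => H (0, List.replicate j false ++ p)) w)
        (List.range (a + 1)) := by
    congr 1
    ext1 j
    simp only [Function.comp_apply, mark]
    exact mark_left r (fun p => H (0, p)) j w
  rw [h2]
  simp only [Function.comp_def]
  ring

theorem sumAt_mark (r : B) (φ : ℕ × List Bool → B) (n : ℕ) (s : ℕ × List Bool) :
    sumAt (mark r φ) n s = mark r (sumAt φ n) s
      + ∑ p ∈ Finset.range n, sumAt (fun s => kap r s.2) p s * sumAt φ (n - 1 - p) (0, [true]) := by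
  induction n generalizing s with
  | zero => simp [sumAt]
  | succ n ih =>
    have h1 : sumAt (mark r φ) (n + 1) s = nxt (sumAt (mark r φ) n) s := rfl
    have h2 : sumAt (mark r φ) n = fun s => mark r (sumAt φ n) s
      + ∑ p ∈ Finset.range n, sumAt (fun s => kap r s.2) p s * sumAt φ (n - 1 - p) (0, [true]) := by
      ext1 s
      exact ih s
    rw [h1, h2, nxt, List.sum_map_add]
    have h3 : ((ch3 s).map (mark r (sumAt φ n))).sum = mark r (sumAt φ (n + 1)) s
        + kap r s.2 * sumAt φ n (0, [true]) := nxt_mark r (sumAt φ n) s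
    rw [h3, Finset.sum_range_succ']
    have h4 : ((ch3 s).map (fun s => ∑ p ∈ Finset.range n, sumAt (fun s => kap r s.2) p s
        * sumAt φ (n - 1 - p) (0, [true]))).sum = ∑ p ∈ Finset.range n,
        sumAt (fun s => kap r s.2) (p + 1) s * sumAt φ (n + 1 - 1 - (p + 1)) (0, [true]) := by
      have h5 : ∀ L : List (ℕ × List Bool), (L.map (fun s => ∑ p ∈ Finset.range n,
          sumAt (fun s => kap r s.2) p s * sumAt φ (n - 1 - p) (0, [true]))).sum
          = ∑ p ∈ Finset.range n, (L.map (sumAt (fun s => kap r s.2) p)).sum
            * sumAt φ (n - 1 - p) (0, [true]) := by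
        intro L
        induction L with
        | nil => simp
        | cons c L ih =>
          rw [List.map_cons, List.sum_cons, ih, ← Finset.sum_add_distrib]
          apply Finset.sum_congr rfl
          intro p _
          rw [List.map_cons, List.sum_cons]
          ring
      rw [h5]
      apply Finset.sum_congr rfl
      intro p _
      rw [sumAt]
      congr 2
      omega
    rw [h4]
    simp only [sumAt, Nat.add_sub_cancel, Nat.sub_zero]
    ring

theorem E3_mark (r : B) (φ : ℕ × List Bool → B) :
    E3 (mark r φ) = (C r + X * E3 (fun s => kap r s.2)) * E3 φ := by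
  ext n
  rw [add_mul, map_add, PowerSeries.coeff_C_mul, E3, coeff_mk, sumAt_mark, mul_assoc]
  have h1 : mark r (sumAt φ n) (0, [true]) = r * coeff n (E3 φ) := by
    simp [mark, Mk, E3]
  rw [h1]
  congr 1
  cases n with
  | zero => simp
  | succ n =>
    rw [PowerSeries.coeff_succ_X_mul, PowerSeries.coeff_mul,
      Finset.Nat.sum_antidiagonal_eq_sum_range_succ_mk]
    apply Finset.sum_congr rfl
    intro p _
    simp [E3]

/-- geometric sums -/
def gs (r : B) (n : ℕ) : B := ∑ i ∈ Finset.range n, r ^ i

theorem gs_succ (r : B) (n : ℕ) : gs r (n + 1) = gs r n + r ^ n := Finset.sum_range_succ _ _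

theorem gs_mul (r : B) (n : ℕ) : (r - 1) * gs r n = r ^ n - 1 := by
  induction n with
  | zero => simp [gs]
  | succ n ih => rw [gs_succ, mul_add, ih]; ring

theorem left_sum (r : B) (w : List Bool) (a : ℕ) (φ : ℕ × List Bool → B)
    (h : ∀ j, φ (0, List.replicate j false ++ w) = r ^ (j + w.length)) :
    r * gs r w.length + (((List.range (a + 1)).map
      (fun j => (0, List.replicate j false ++ w))).map φ).sum
      = r * gs r (a + w.length) + r ^ w.length := by
  induction a with
  | zero =>
    have := h 0
    simpa using this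
  | succ a ih =>
    rw [List.range_succ, List.map_append, List.map_append, List.sum_append, ← add_assoc, ih]
    simp only [List.map_cons, List.map_nil, List.sum_cons, List.sum_nil, add_zero, h]
    rw [show a + 1 + w.length = a + w.length + 1 from by omega, gs_succ]
    ring

theorem right_sum_t (r : B) (w : List Bool) (a : ℕ) :
    ((right3 a w).map (fun s => r ^ s.2.length)).sum = r * gs r w.length := by
  induction w generalizing a with
  | nil => simp [right3, gs]
  | cons b w ih =>
    rw [right3, List.map_cons, List.sum_cons, ih]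
    simp only [List.length_cons]
    rw [gs_succ]
    ring

theorem kap_add (r : B) (w : List Bool) : kap r w + Mk r (fun _ => 1) w = r * gs r w.length := by
  induction w with
  | nil => simp [kap, Mk, gs]
  | cons b w ih =>
    rw [kap, Mk, List.length_cons, gs_succ, mul_add, ← ih]
    cases b <;> simp <;> ring

theorem right_sum_S (r : B) (w : List Bool) (a : ℕ) :
    ((right3 a w).map (fun s => r ^ (s.1 + s.2.length))).sum
      = kap r w + Mk r (fun p => r ^ (a + p.length)) w := by
  induction w generalizing a with
  | nil => simp [right3, kap, Mk]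
  | cons b w ih =>
    rw [right3, List.map_cons, List.sum_cons, ih, kap, Mk]
    have h1 : (fun p : List Bool => r ^ (a + (b :: p).length))
        = fun p : List Bool => r ^ (a + 1 + p.length) := by
      ext1 p
      rw [List.length_cons]
      congr 1
      omega
    rw [h1]
    cases b
    · simp only [List.length_cons]
      simp
      ring
    · simp only [List.length_cons]
      simp
      ring

theorem nxt_t (r : B) (s : ℕ × List Bool) :
    nxt (fun s => r ^ s.2.length) s = r * gs r (s.1 + s.2.length) + r ^ s.2.length := by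
  obtain ⟨a, w⟩ := s
  rw [nxt, ch3, List.map_append, List.sum_append, right_sum_t, add_comm]
  exact left_sum r w a (fun s => r ^ s.2.length) (fun j => by simp)

theorem nxt_S (r : B) (s : ℕ × List Bool) :
    nxt (fun s => r ^ (s.1 + s.2.length)) s
      = r * gs r (s.1 + s.2.length) + r ^ s.2.length
        + mark r (fun s => r ^ (s.1 + s.2.length)) s - mark r (fun _ => 1) s := by
  obtain ⟨a, w⟩ := s
  have h1 := left_sum r w a (fun s => r ^ (s.1 + s.2.length)) (fun j => by simp)
  have h2 := kap_add r w
  rw [nxt, ch3, List.map_append, List.sum_append, right_sum_S, mark, mark]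
  simp only at h1 h2 ⊢
  linear_combination h1 + h2

end

theorem alg3 {K : Type} [CommRing K] (x r F J G M Cc Ek : K)
    (h1 : G = r + x * (r * J + M + Cc * G - Cc * F)) (h2 : M = r + x * (r * J + M))
    (h3 : Cc = r + x * Ek) (h4 : (r - 1) * (Ek + Cc * F) = r * (M - F))
    (h5 : G = F + (r - 1) * J) :
    (1 + x * F) * J * ((1 - x) * (r - 1) - x ^ 2 * r) - x * r ^ 2 * J * (1 + x ^ 2 * J)
      = (1 + x * F) * (r - (1 - x) * F) := by
  have e1 : (1 - x) * M = r * (1 + x * J) := by linear_combination h2
  have e2 : (1 + x * F) * (r + (r - 1) * Cc) = r ^ 2 + x * r * M := by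
    linear_combination (r - 1) * h3 + x * h4
  have e3 : (1 - x) * ((1 + x * F) * (r + (r - 1) * Cc)) = r ^ 2 * (1 + x ^ 2 * J) := by
    linear_combination (1 - x) * e2 + x * r * e1
  have e4 : J * ((1 - x) * (r - 1) - x ^ 2 * r - x * (1 - x) * (r + (r - 1) * Cc))
      = r - (1 - x) * F := by
    have e5 : G = r + x * (r * J + M + Cc * (r - 1) * J) := by
      linear_combination h1 + x * Cc * h5
    linear_combination (1 - x) * e5 - (1 - x) * h5 + x * e1
  linear_combination (1 + x * F) * e4 + x * J * e3

/-- the functional equation in `B⟦Y⟧` -/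
theorem E3_equation {B : Type} [CommRing B] (r : B) :
    ∃ J : PowerSeries B, (1 + X * E3 (fun _ => (1 : B))) * J * ((1 - X) * (C r - 1) - X ^ 2 * C r)
      - X * C r ^ 2 * J * (1 + X ^ 2 * J)
      = (1 + X * E3 (fun _ => (1 : B))) * (C r - (1 - X) * E3 (fun _ => (1 : B))) := by
  refine ⟨E3 (fun s => gs r (s.1 + s.2.length)), ?_⟩
  refine alg3 X (C r) (E3 (fun _ => (1 : B))) (E3 (fun s => gs r (s.1 + s.2.length)))
    (E3 (fun s => r ^ (s.1 + s.2.length))) (E3 (fun s => r ^ s.2.length))
    (C r + X * E3 (fun s => kap r s.2)) (E3 (fun s => kap r s.2)) ?_ ?_ rfl ?_ ?_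
  · have h0 := E3_rec (fun s : ℕ × List Bool => r ^ (s.1 + s.2.length))
    have h1 : nxt (fun s => r ^ (s.1 + s.2.length)) = fun s : ℕ × List Bool =>
        (r * gs r (s.1 + s.2.length) + r ^ s.2.length
        + mark r (fun s => r ^ (s.1 + s.2.length)) s) + (-1) * mark r (fun _ => 1) s := by
      ext1 s
      rw [nxt_S]
      ring
    rw [h1, E3_add, E3_add, E3_add, E3_mul, E3_mul, E3_mark, E3_mark] at h0
    simp only [List.length_cons, List.length_nil, zero_add, pow_one, map_neg, map_one] at h0
    linear_combination h0
  · have h0 := E3_rec (fun s : ℕ × List Bool => r ^ s.2.length)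
    have h1 : nxt (fun s => r ^ s.2.length) = fun s : ℕ × List Bool =>
        r * gs r (s.1 + s.2.length) + r ^ s.2.length := by
      ext1 s
      rw [nxt_t]
    rw [h1, E3_add, E3_mul] at h0
    simp only [List.length_cons, List.length_nil, zero_add, pow_one] at h0
    exact h0
  · have h1 : E3 (fun s => kap r s.2) + (C r + X * E3 (fun s => kap r s.2)) * E3 (fun _ => 1)
        = E3 (fun s => r * gs r s.2.length) := by
      rw [← E3_mark, ← E3_add]
      congr 1
      ext1 s
      exact kap_add r s.2
    have h2 : (C r - 1) * E3 (fun s => r * gs r s.2.length)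
        = C r * (E3 (fun s => r ^ s.2.length) - E3 (fun _ => 1)) := by
      have h3 : (C r - 1 : PowerSeries B) = C (r - 1) := by simp
      have h4 : E3 (fun s => r ^ s.2.length) - E3 (fun _ => 1)
          = E3 (fun s => r ^ s.2.length + (-1) * (1 : B)) := by
        rw [E3_add, E3_mul]
        simp [sub_eq_add_neg]
      rw [h3, h4, ← E3_mul, ← E3_mul]
      congr 1
      ext1 s
      have := gs_mul r s.2.length
      linear_combination r * this
    rw [h1, h2]
  · have h3 : (C r - 1 : PowerSeries B) = C (r - 1) := by simp
    rw [h3, ← E3_mul, ← E3_add]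
    congr 1
    ext1 s
    rw [gs_mul]
    ring

end Pool.Agent.T9h72.Fish
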