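import Pool.Agent.T9h72.Fish.Alg0

set_option autoImplicit false

/-! The functional equation of the tree `ch4`. -/

namespace Pool.Agent.T9h72.Fish

open PowerSeries Finset

/-- append a stack at the bottom -/
def app4 (st : List (ℕ × ℕ)) (s : ℕ × Bool × List (ℕ × ℕ)) : ℕ × Bool × List (ℕ × ℕ) :=
  (s.1, s.2.1, s.2.2 ++ st)

theorem touch4_append (st1 st2 : List (ℕ × ℕ)) :
    touch4 (st1 ++ st2) = (touch4 st1).map (app4 st2) ++ touch4 st2 := by
  induction st1 with
  | nil => simp [touch4]
  | cons e st1 ih =>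
    obtain ⟨x, b⟩ := e
    rw [List.cons_append, touch4, ih, touch4, List.map_append, List.append_assoc, List.map_map]
    rfl

theorem ch4_append (st : List (ℕ × ℕ)) (s : ℕ × Bool × List (ℕ × ℕ)) :
    ch4 (app4 st s) = (ch4 s).map (app4 st) ++ touch4 st := by
  obtain ⟨a, ν, st1⟩ := s
  unfold ch4
  simp only [app4]
  rw [touch4_append]
  simp only [List.map_append, List.map_map, List.append_assoc]
  congr 1
  congr 1
  cases ν <;> simp [app4]

/-- generating function of the touches of a stack -/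
noncomputable def wst (st : List (ℕ × ℕ)) : PowerSeries ℤ :=
  1 + X * ((touch4 st).map (gf ch4)).sum

theorem gf4_append (st : List (ℕ × ℕ)) (s : ℕ × Bool × List (ℕ × ℕ)) :
    gf ch4 (app4 st s) = gf ch4 s * wst st := by
  refine gf_unique ch4 (fun _ => wst st) (fun s => gf ch4 (app4 st s))
    (fun s => gf ch4 s * wst st) ?_ ?_ s
  · intro s
    rw [gf_rec, ch4_append, List.map_append, List.sum_append, List.map_map, wst]
    simp only [Function.comp_def]
    ring
  · intro s
    rw [List.sum_map_mul_right]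
    conv_lhs => rw [gf_rec]
    ring

noncomputable def P4 (a : ℕ) (ν : Bool) : PowerSeries ℤ := gf ch4 (a, ν, [])

noncomputable def w4 (b m : ℕ) : PowerSeries ℤ := wst [(m, b)]

theorem gf4_single (a : ℕ) (ν : Bool) (b m : ℕ) : gf ch4 (a, ν, [(m, b)]) = P4 a ν * w4 b m :=
  gf4_append [(m, b)] (a, ν, [])

theorem sum_map_range (f : ℕ → PowerSeries ℤ) (n : ℕ) :
    ((List.range n).map f).sum = ∑ i ∈ Finset.range n, f i := by
  induction n with
  | zero => simp
  | succ n ih => rw [List.range_succ, List.map_append, List.sum_append, ih, Finset.sum_range_succ]; simp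

theorem w4_rec (b m : ℕ) :
    w4 b m = 1 + X * ∑ p ∈ Finset.range m, P4 (b + (p + 1)) true * w4 1 (m - (p + 1)) := by
  rw [w4, wst, touch4, touch4, List.append_nil, List.map_map, ← sum_map_range]
  congr 4
  ext1 p
  exact gf4_single _ _ _ _

theorem P4_false (a : ℕ) :
    P4 a false = 1 + X * ∑ j ∈ Finset.range a, P4 (j + 1) false * w4 0 (a - (j + 1)) := by
  rw [P4, gf_rec, ← sum_map_range]
  congr 2
  unfold ch4
  simp only [touch4, List.append_nil, List.map_map, Bool.false_eq_true, if_false, add_zero]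
  congr 2
  ext1 j
  exact gf4_single _ _ _ _

theorem P4_true (a : ℕ) :
    P4 a true = 1 + X * (∑ j ∈ Finset.range a, P4 (j + 1) false * w4 0 (a - (j + 1) + 1)
      + P4 (a + 1) true) := by
  rw [P4, gf_rec, ← sum_map_range]
  congr 2
  unfold ch4
  simp only [touch4, List.append_nil, if_true, List.map_append, List.map_map, List.sum_append,
    List.map_cons, List.map_nil, List.sum_cons, List.sum_nil, add_zero]
  congr 1
  congr 2
  ext1 j
  exact gf4_single _ _ _ _

noncomputable def D4 : PowerSeries (PowerSeries ℤ) := PowerSeries.mk (fun a => P4 (a + 1) false)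
noncomputable def T4 : PowerSeries (PowerSeries ℤ) := PowerSeries.mk (fun a => P4 (a + 1) true)
noncomputable def W40 : PowerSeries (PowerSeries ℤ) := PowerSeries.mk (w4 0)
noncomputable def W41 : PowerSeries (PowerSeries ℤ) := PowerSeries.mk (w4 1)
noncomputable def geo : PowerSeries (PowerSeries ℤ) := PowerSeries.mk 1

theorem geo_mul : geo * (1 - X) = 1 := PowerSeries.mk_one_mul_one_sub_eq_one _

theorem coeff_geo (n : ℕ) : coeff n geo = 1 := by simp [geo]

theorem w4_zero (b : ℕ) : w4 b 0 = 1 := by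
  rw [w4_rec, Finset.range_zero, Finset.sum_empty, mul_zero, add_zero]

theorem D4_eq : D4 = geo + C X * (D4 * W40) := by
  ext1 a
  rw [map_add, coeff_geo, PowerSeries.coeff_C_mul, PowerSeries.coeff_mul, D4, coeff_mk, P4_false,
    Finset.Nat.sum_antidiagonal_eq_sum_range_succ_mk]
  congr 2
  apply Finset.sum_congr rfl
  intro j _
  simp only [coeff_mk, W40]
  congr 2
  omega

theorem T4_eq : X * T4 = X * geo + C X * (D4 * W40 - D4 + T4 - C (P4 1 true)) := by
  ext1 a
  cases a with
  | zero =>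
    rw [map_add, PowerSeries.coeff_zero_X_mul, PowerSeries.coeff_zero_X_mul,
      PowerSeries.coeff_C_mul, map_sub, map_add, map_sub, PowerSeries.coeff_mul]
    simp [D4, T4, W40, w4_zero]
  | succ a =>
    rw [map_add, PowerSeries.coeff_succ_X_mul, PowerSeries.coeff_succ_X_mul,
      PowerSeries.coeff_C_mul, map_sub, map_add, map_sub, PowerSeries.coeff_mul, coeff_geo,
      Finset.Nat.sum_antidiagonal_eq_sum_range_succ_mk, Finset.sum_range_succ]
    have h0 : coeff (a + 1) (C (P4 1 true)) = (0 : PowerSeries ℤ) := by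
      rw [PowerSeries.coeff_C, if_neg (by omega)]
    rw [h0]
    simp only [D4, T4, W40, coeff_mk]
    rw [Nat.sub_self, w4_zero, P4_true (a + 1)]
    have h1 : ∑ j ∈ Finset.range (a + 1), P4 (j + 1) false * w4 0 (a + 1 - (j + 1) + 1)
        = ∑ j ∈ Finset.range (a + 1), P4 (j + 1) false * w4 0 (a + 1 - j) := by
      apply Finset.sum_congr rfl
      intro j hj
      rw [Finset.mem_range] at hj
      congr 2
      omega
    rw [h1]
    ring

theorem W41_eq : W41 = geo + C X * ((T4 - C (P4 1 true)) * W41) := by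
  ext1 m
  rw [map_add, coeff_geo, PowerSeries.coeff_C_mul, PowerSeries.coeff_mul,
    Finset.Nat.sum_antidiagonal_eq_sum_range_succ_mk, Finset.sum_range_succ']
  have h0 : coeff 0 (T4 - C (P4 1 true)) = (0 : PowerSeries ℤ) := by simp [T4]
  rw [h0, zero_mul, add_zero]
  simp only [W41, coeff_mk]
  rw [w4_rec]
  congr 2
  apply Finset.sum_congr rfl
  intro p _
  have h1 : coeff (p + 1) (T4 - C (P4 1 true)) = P4 (1 + (p + 1)) true := by
    rw [map_sub, PowerSeries.coeff_C, if_neg (by omega), sub_zero, T4, coeff_mk, Nat.add_comm 1]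
  rw [h1]

theorem W40_eq : W40 = geo + C X * (X * T4 * W41) := by
  ext1 m
  rw [map_add, coeff_geo, PowerSeries.coeff_C_mul, PowerSeries.coeff_mul,
    Finset.Nat.sum_antidiagonal_eq_sum_range_succ_mk, Finset.sum_range_succ']
  rw [PowerSeries.coeff_zero_X_mul, zero_mul, add_zero]
  simp only [W40, W41, coeff_mk]
  rw [w4_rec]
  congr 2
  apply Finset.sum_congr rfl
  intro p _
  rw [PowerSeries.coeff_succ_X_mul, T4, coeff_mk, Nat.zero_add]

theorem alg4 {K : Type} [CommRing K] (x t D T W0 W1 Z f g : K) (h1 : D = g + x * (D * W0))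
    (h2 : t * T = t * g + x * (D * W0 - D + T - f)) (h3 : g * (1 - t) = 1)
    (h4 : Z = 1 + x * f) (h5 : W1 = g + x * ((T - f) * W1)) (h6 : W0 = g + x * (t * T * W1)) :
    (1 - x) * D = Z + (t - x) * T ∧
    x * (1 - t) * (1 - x) * ((1 - x) * D) ^ 2
    - (1 - x) * D * (x * (1 - x) + t * Z * (1 - t - x + x ^ 2)) + (1 - x) * t * Z = 0 := by
  have h2' : (1 - x) * D = Z + (t - x) * T := by
    rw [h4]
    linear_combination h1 - h2 + h3
  refine ⟨h2', ?_⟩
  have e1 : D * (1 - t) * (1 - x * W0) = 1 := by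
    linear_combination (1 - t) * h1 + h3
  have e3 : W1 * (1 - t) * (Z - x * T) = 1 := by
    rw [h4]
    linear_combination (1 - t) * h5 + h3
  have e4 : (1 - t) * (Z - x * T) * W0 = Z - x * T * (1 - t) := by
    linear_combination (1 - t) * (Z - x * T) * h6 + (Z - x * T) * h3 + x * t * T * e3
  have e5 : D * ((1 - t) * (Z - x * T) - x * (Z - x * T * (1 - t))) = Z - x * T := by
    linear_combination (Z - x * T) * e1 + x * D * e4
  have e6 : (t - x) * (Z - x * T) = t * Z - x * ((1 - x) * D) := by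
    linear_combination x * h2'
  have e7 : (t - x) * (Z - x * T * (1 - t)) = Z * t * (1 - x) - x * (1 - t) * ((1 - x) * D) := by
    linear_combination x * (1 - t) * h2'
  have e8 : D * ((1 - t) * (t * Z - x * ((1 - x) * D)) - x * (Z * t * (1 - x)
      - x * (1 - t) * ((1 - x) * D))) = t * Z - x * ((1 - x) * D) := by
    rw [← e6, ← e7]
    linear_combination (t - x) * e5
  linear_combination (-(1 - x)) * e8

/-- `1 + x f` for the tree `ch4` -/
noncomputable def Z4 : PowerSeries ℤ := 1 + X * gf ch4 (1, true, [])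

noncomputable def Y4 : PowerSeries (PowerSeries ℤ) := (1 - C X) * D4

theorem Z4_C : C (R := PowerSeries ℤ) Z4 = 1 + C X * C (P4 1 true) := by
  rw [Z4, map_add, map_one, map_mul]; rfl

theorem Y4_eq : Y4 = C Z4 + (X - C X) * T4 :=
  (alg4 _ _ _ _ _ _ _ _ _ D4_eq T4_eq geo_mul Z4_C W41_eq W40_eq).1

theorem Phi4 : C X * (1 - X) * (1 - C X) * Y4 ^ 2
    - Y4 * (C X * (1 - C X) + X * C Z4 * (1 - X - C X + C X ^ 2))
    + (1 - C X) * X * C Z4 = 0 :=
  (alg4 _ _ _ _ _ _ _ _ _ D4_eq T4_eq geo_mul Z4_C W41_eq W40_eq).2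

end Pool.Agent.T9h72.Fish
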