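import Pool.Agent.T9h72.Fish.T1alg
import Pool.Agent.T9h72.Fish.T3alg
import Pool.Agent.T9h72.Fish.T4alg

set_option autoImplicit false

/-! The three trees have the same generating function. -/

namespace Pool.Agent.T9h72.Fish

open PowerSeries T1

/-- power series in `x` with coefficients in `ℤ⟦t⟧` -/
abbrev SS : Type := PowerSeries (PowerSeries ℤ)

noncomputable def iot : PowerSeries ℤ →+* SS := PowerSeries.map (C (R := ℤ))
noncomputable def eva : SS →+* PowerSeries ℤ := PowerSeries.map (constantCoeff (R := ℤ))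

theorem eva_iot (f : PowerSeries ℤ) : eva (iot f) = f := by
  ext n
  simp [eva, iot]

theorem iot_X : iot X = X := by simp [iot]
theorem eva_X : eva X = X := by simp [eva]

theorem cc_iot (f : PowerSeries ℤ) : constantCoeff (iot f) = C (constantCoeff f) := by
  rw [iot, ← coeff_zero_eq_constantCoeff_apply, coeff_map, coeff_zero_eq_constantCoeff_apply]

def Phi2 {K : Type} [CommRing K] (x z Y Z : K) : K :=
  (1 - x) * (1 - x * z) * Y ^ 2 - Y * ((1 - x) + z * Z * (1 - x * z - x + x ^ 2)) + (1 - x) * z * Z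

theorem map_Phi2 {K L : Type} [CommRing K] [CommRing L] (g : K →+* L) (x z Y Z : K) :
    g (Phi2 x z Y Z) = Phi2 (g x) (g z) (g Y) (g Z) := by
  simp [Phi2]

/-- the link lemma -/
theorem link (zt Y Y' : SS) (Z Z' : PowerSeries ℤ) (h : Phi2 X zt Y (iot Z) = 0)
    (h' : Phi2 X zt Y' (iot Z') = 0) (cY : constantCoeff Y = 1) (cY' : constantCoeff Y' = 1)
    (cZ : constantCoeff Z = 1) (cz : constantCoeff zt ≠ 1) (eY : eva Y = Z) (eY' : eva Y' = Z') :
    Z = Z' := by
  obtain ⟨U, hU⟩ : ∃ U : SS, U = (1 - X) * (1 - X * zt) * (Y + Y') - (1 - X)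
    - zt * iot Z * (1 - X * zt - X + X ^ 2) := ⟨_, rfl⟩
  obtain ⟨V, hV⟩ : ∃ V : SS, V = zt * ((1 - X) - Y' * (1 - X * zt - X + X ^ 2)) := ⟨_, rfl⟩
  have key : (Y - Y') * U = (iot (Z' - Z)) * V := by
    rw [hU, hV, map_sub]
    unfold Phi2 at h h'
    linear_combination h - h'
  have hXU : ¬ (X : SS) ∣ U := by
    rw [X_dvd_iff, hU]
    simp only [map_sub, map_mul, map_add, map_one, map_pow, constantCoeff_X, cY, cY', cc_iot, cZ]
    intro h1
    apply cz
    have h2 : (C (1 : ℤ) : PowerSeries ℤ) = 1 := map_one _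
    linear_combination -h1
  have hXV : (X : SS) ∣ V := by
    rw [X_dvd_iff, hV]
    simp [cY']
  have hk : ∀ k, (X : PowerSeries ℤ) ^ k ∣ Z' - Z := by
    intro k
    induction k with
    | zero => simp
    | succ k ih =>
      have h1 : (X : SS) ^ k ∣ iot (Z' - Z) := by
        obtain ⟨c, hc⟩ := ih
        refine ⟨iot c, ?_⟩
        rw [hc, map_mul, map_pow, iot_X]
      have h2 : (X : SS) ^ (k + 1) ∣ (Y - Y') * U := by
        rw [key, pow_succ]
        exact mul_dvd_mul h1 hXV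
      have h3 : (X : SS) ^ (k + 1) ∣ Y - Y' :=
        PowerSeries.X_prime.pow_dvd_of_dvd_mul_right (k + 1) hXU h2
      obtain ⟨c, hc⟩ := h3
      have h4 : eva (Y - Y') = X ^ (k + 1) * eva c := by rw [hc, map_mul, map_pow, eva_X]
      rw [map_sub, eY, eY'] at h4
      refine ⟨-eva c, ?_⟩
      linear_combination -h4
  have h0 : Z' - Z = 0 := by
    ext n
    have := (X_pow_dvd_iff.1 (hk (n + 1))) n (by omega)
    rw [this]
    simp
  exact (sub_eq_zero.1 h0).symm

theorem exists_inv (f : SS) (hf : constantCoeff f = 1) : ∃ g : SS, f * g = 1 := by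
  have h : IsUnit f := by
    rw [PowerSeries.isUnit_iff_constantCoeff, hf]
    exact isUnit_one
  obtain ⟨u, hu⟩ := h
  exact ⟨↑u⁻¹, by rw [← hu]; simp⟩

/-! ### The tree `ch4` -/

noncomputable def theta (zt : SS) : PowerSeries (PowerSeries ℤ) →+* SS :=
  (evX (A := PowerSeries ℤ)).comp ((rescale zt).comp (PowerSeries.map iot))

theorem theta_C (zt : SS) (f : PowerSeries ℤ) : theta zt (C f) = iot f := by
  simp only [theta, RingHom.comp_apply, PowerSeries.map_C]
  have : (rescale zt) (C (iot f)) = C (iot f) := by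
    ext1 n
    rw [coeff_rescale, coeff_C]
    by_cases h : n = 0 <;> simp [h]
  rw [this, evX_C]

theorem theta_X (zt : SS) : theta zt X = zt * X := by
  simp only [theta, RingHom.comp_apply, PowerSeries.map_X]
  rw [rescale_X, map_mul, evX_C, evX_X]

theorem T4Y (zt : SS) (hzt : eva zt = 1) :
    ∃ Y : SS, Phi2 X zt Y (iot Z4) = 0 ∧ constantCoeff Y = 1 ∧ eva Y = Z4 := by
  have h1 : theta zt Y4 = iot Z4 + (zt * X - X) * theta zt T4 := by
    have := congrArg (theta zt) Y4_eq
    rw [map_add, map_mul, map_sub, theta_C, theta_C, theta_X, iot_X] at this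
    exact this
  have h2 := congrArg (theta zt) Phi4
  simp only [map_add, map_mul, map_sub, map_pow, map_one, map_zero, theta_C, theta_X, iot_X] at h2
  refine ⟨theta zt Y4, ?_, ?_, ?_⟩
  · have hX : (X : SS) ≠ 0 := PowerSeries.X_ne_zero
    apply mul_left_cancel₀ hX
    rw [mul_zero]
    unfold Phi2
    linear_combination h2
  · rw [h1]
    simp only [map_add, map_mul, map_sub, constantCoeff_X, cc_iot]
    have : constantCoeff Z4 = 1 := by simp [Z4]
    rw [this]
    simp
  · rw [h1, map_add, map_mul, map_sub, map_mul, hzt, eva_X, eva_iot]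
    ring

/-! ### The tree `ch3` -/

noncomputable def Z3 : PowerSeries ℤ := 1 + X * gf ch3 (0, [true])

theorem sumAt_one {B : Type} [CommRing B] (n : ℕ) (s : ℕ × List Bool) :
    sumAt (fun _ => (1 : B)) n s = (cnt ch3 n s : B) := by
  induction n generalizing s with
  | zero => simp [sumAt, cnt]
  | succ n ih =>
    rw [sumAt, cnt, Nat.cast_list_sum, List.map_map]
    congr 2
    ext1 c
    exact ih c

theorem evX_E3 : evX (E3 (fun _ => (1 : SS))) = iot (gf ch3 (0, [true])) := by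
  ext1 m
  rw [coeff_evX]
  have h1 : ∀ p ∈ Finset.HasAntidiagonal.antidiagonal m, coeff p.2 (coeff p.1 (E3 (fun _ => (1 : SS))))
      = if p = (m, 0) then (cnt ch3 m (0, [true]) : PowerSeries ℤ) else 0 := by
    intro p hp
    rw [Finset.HasAntidiagonal.mem_antidiagonal] at hp
    rw [E3, coeff_mk, sumAt_one]
    have h2 : ((cnt ch3 p.1 (0, [true]) : ℕ) : SS) = C ((cnt ch3 p.1 (0, [true]) : ℕ) : PowerSeries ℤ) := by
      simp
    rw [h2, coeff_C]
    by_cases h : p.2 = 0
    · have h3 : p = (m, 0) := by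
        ext
        · simp only; omega
        · exact h
      rw [if_pos h, if_pos h3, h3]
    · rw [if_neg h, if_neg (fun h3 => h (by rw [h3]))]
  rw [Finset.sum_congr rfl h1, Finset.sum_ite_eq' (Finset.HasAntidiagonal.antidiagonal m) (m, 0)]
  simp [iot, gf]

theorem alg3' {K : Type} [CommRing K] (x z Z F J i1 i2 Zi : K) (hZ : Z = 1 + x * F)
    (h : Z * J * ((1 - x) * (z * Z - 1) - x ^ 2 * (z * Z)) - x * (z * Z) ^ 2 * J * (1 + x ^ 2 * J)
      = Z * (z * Z - (1 - x) * F))
    (hi1 : (1 - x) * i1 = 1) (hi2 : (1 - x * z) * i2 = 1) (hZi : Z * Zi = 1) :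
    Phi2 x z (((1 - x) + x ^ 2 * z * Z * (1 + x * z * J)) * i1 * i2) Z = 0 := by
  have h2 : J * ((1 - x) * (z * Z - 1) - x ^ 2 * (z * Z)) - x * z ^ 2 * Z * J * (1 + x ^ 2 * J)
      = z * Z - (1 - x) * F := by
    linear_combination Zi * h - (J * ((1 - x) * (z * Z - 1) - x ^ 2 * (z * Z))
      - x * z ^ 2 * Z * J * (1 + x ^ 2 * J) - (z * Z - (1 - x) * F)) * hZi
  obtain ⟨y, hy⟩ : ∃ y, y = (1 - x) + x ^ 2 * z * Z * (1 + x * z * J) := ⟨_, rfl⟩
  have h3 : y ^ 2 - y * ((1 - x) + z * Z * (1 - x * z - x + x ^ 2))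
      + (1 - x) ^ 2 * (1 - x * z) * (z * Z) = 0 := by
    rw [hy]
    linear_combination (-(z * Z * x ^ 2 * (x * z))) * h2 - (1 - x) * z * z * Z * x ^ 2 * hZ
  rw [← hy]
  unfold Phi2
  linear_combination i1 * i2 * h3 + (i1 * i2 * y ^ 2 - (1 - x) * z * Z) * ((1 - x) * i1 * hi2 + hi1)

theorem T3Y (zt : SS) (hzt : eva zt = 1) :
    ∃ Y : SS, Phi2 X zt Y (iot Z3) = 0 ∧ constantCoeff Y = 1 ∧ eva Y = Z3 := by
  obtain ⟨J', hJ'⟩ := E3_equation (zt * iot Z3)
  have hJ := congrArg evX hJ'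
  simp only [map_add, map_mul, map_sub, map_pow, map_one, evX_C, evX_X, evX_E3] at hJ
  have hZ : iot Z3 = 1 + X * iot (gf ch3 (0, [true])) := by
    rw [Z3, map_add, map_one, map_mul, iot_X]
  rw [← hZ] at hJ
  obtain ⟨i1, hi1⟩ := exists_inv (1 - X) (by simp)
  obtain ⟨i2, hi2⟩ := exists_inv (1 - X * zt) (by simp)
  obtain ⟨Zi, hZi⟩ := exists_inv (iot Z3) (by rw [hZ]; simp)
  have hcJ := alg3' X zt (iot Z3) (iot (gf ch3 (0, [true]))) (evX J') i1 i2 Zi hZ hJ hi1 hi2 hZi
  obtain ⟨Y, hY⟩ : ∃ Y, Y = ((1 - X) + X ^ 2 * zt * iot Z3 * (1 + X * zt * evX J')) * i1 * i2 :=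
    ⟨_, rfl⟩
  rw [← hY] at hcJ
  refine ⟨Y, hcJ, ?_, ?_⟩
  · have h1 : Y * ((1 - X) * (1 - X * zt))
        = (1 - X) + X ^ 2 * zt * iot Z3 * (1 + X * zt * evX J') := by
      rw [hY]
      linear_combination ((1 - X) + X ^ 2 * zt * iot Z3 * (1 + X * zt * evX J'))
        * ((1 - X) * i1 * hi2 + hi1)
    have h2 := congrArg constantCoeff h1
    simpa using h2
  · have h1 : Y * ((1 - X) * (1 - X * zt))
        = (1 - X) + X ^ 2 * zt * iot Z3 * (1 + X * zt * evX J') := by
      rw [hY]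
      linear_combination ((1 - X) + X ^ 2 * zt * iot Z3 * (1 + X * zt * evX J'))
        * ((1 - X) * i1 * hi2 + hi1)
    have h2 := congrArg eva h1
    simp only [map_add, map_mul, map_sub, map_pow, map_one, eva_X, eva_iot, hzt] at h2
    have h3 := congrArg eva hcJ
    rw [map_Phi2, map_zero, eva_X, hzt, eva_iot] at h3
    have h4 : (1 - X) * ((eva Y - Z3) * ((1 - X) * eva Y - 1)) = 0 := by
      unfold Phi2 at h3
      linear_combination h3
    have hne : (1 - X : PowerSeries ℤ) ≠ 0 := by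
      intro h5
      have := congrArg constantCoeff h5
      simp at this
    rcases mul_eq_zero.1 h4 with h5 | h5
    · exact absurd h5 hne
    · rcases mul_eq_zero.1 h5 with h6 | h6
      · exact sub_eq_zero.1 h6
      · exfalso
        have h7 : (X : PowerSeries ℤ) ^ 2 * (Z3 * (1 + X * eva (evX J'))) = 0 := by
          linear_combination -h2 + (1 - X) * h6
        have h8 : (X : PowerSeries ℤ) ^ 2 ≠ 0 := pow_ne_zero _ PowerSeries.X_ne_zero
        rcases mul_eq_zero.1 h7 with h9 | h9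
        · exact h8 h9
        · have := congrArg constantCoeff h9
          simp [Z3] at this

/-! ### The tree `ch1` -/

theorem alg1' {K : Type} [CommRing K] (x t p p' Z Zi pinv zt : K) (hp : p = 1 + x * p')
    (hZi : Z * Zi = 1) (hpi : p * pinv = 1)
    (hz : zt = x + (1 - x) * p * Zi + (1 - x) * t * p' * pinv)
    (h : x * (x + (1 - x) * t) * p ^ 2 - Z * (1 - t) * (x ^ 2 + (1 - x) * t) * p
      + (1 - x) * t * (1 - t) * Z = 0) : Phi2 x zt p Z = 0 := by
  have hN : Z * p * zt = x * Z * p + (1 - x) * p ^ 2 + (1 - x) * t * p' * Z := by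
    rw [hz]
    linear_combination (1 - x) * p ^ 2 * hZi + (1 - x) * t * p' * Z * hpi
  have h1 : Z * p * Phi2 x zt p Z = 0 := by
    unfold Phi2
    rw [hp] at hN h ⊢
    linear_combination (x * (Z * (1 + x * p') * zt + (x * Z * (1 + x * p')
      + (1 - x) * (1 + x * p') ^ 2 + (1 - x) * t * p' * Z))
      - (x * (1 - x) * (1 + x * p') ^ 2 + (1 + x * p') * Z * (1 - x + x ^ 2) - (1 - x) * Z)) * hN
      + (1 - x) * Z * p' * h
  linear_combination Zi * pinv * h1 - Phi2 x zt p Z * (p * pinv * hZi + hpi)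

theorem coeff_zero_swap (f : PowerSeries (PowerSeries ℤ)) :
    eva (swapXY f) = constantCoeff f := by
  ext n
  rw [eva, coeff_map, ← coeff_zero_eq_constantCoeff_apply, coeff_swapXY,
    coeff_zero_eq_constantCoeff_apply]

theorem cc_swap (f : PowerSeries (PowerSeries ℤ)) :
    constantCoeff (swapXY f) = PowerSeries.map (constantCoeff (R := ℤ)) f := by
  ext u
  rw [← coeff_zero_eq_constantCoeff_apply, coeff_swapXY, coeff_map,
    coeff_zero_eq_constantCoeff_apply]

theorem swap_iot (s : PowerSeries ℤ) : swapXY (C s) = iot s := swapXY_C s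

theorem T1Y : ∃ zt Y : SS, Phi2 X zt Y (iot Z1) = 0 ∧ constantCoeff Y = 1 ∧ eva Y = Z1 ∧
    eva zt = 1 ∧ constantCoeff zt ≠ 1 := by
  obtain ⟨p, hp⟩ : ∃ p : SS, p = swapXY Pi1 := ⟨_, rfl⟩
  have hq := congrArg swapXY quad1
  simp only [map_add, map_mul, map_sub, map_pow, map_one, map_zero, swap_iot, iot_X, swapXY_X] at hq
  rw [← hp] at hq
  have h1 : eva p = Z1 := by
    rw [hp, coeff_zero_swap, Pi1]
    have : constantCoeff Pt = P1 0 := by simp [Pt]
    simp only [map_add, map_mul, map_sub, map_one, constantCoeff_X, constantCoeff_C, this]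
    rw [Z1, k1]
    ring
  have h2 : constantCoeff p = 1 := by
    rw [hp, cc_swap, Pi1]
    have h3 : PowerSeries.map (constantCoeff (R := ℤ)) Pt = PowerSeries.mk 1 := by
      ext n
      simp [Pt, P1, gf, cnt]
    have h4 : constantCoeff k1 = 0 := by
      simp [k1, P1, gf, cnt]
    have h5 := PowerSeries.mk_one_mul_one_sub_eq_one ℤ
    simp only [map_add, map_mul, map_sub, map_one, map_X, map_C, h3, h4, map_zero]
    linear_combination h5
  have hX : (X : SS) ∣ p - 1 := by
    rw [X_dvd_iff]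
    simp [h2]
  obtain ⟨p', hp'⟩ := hX
  have hpp : p = 1 + X * p' := by linear_combination hp'
  obtain ⟨pinv, hpinv⟩ := exists_inv p h2
  have hcZ : constantCoeff Z1 = 1 := by simp [Z1]
  obtain ⟨Zi, hZi⟩ := exists_inv (iot Z1) (by rw [cc_iot, hcZ]; simp)
  have hPhi := alg1' X (C X) p p' (iot Z1) Zi pinv _ hpp hZi hpinv rfl hq
  refine ⟨_, p, hPhi, h2, h1, ?_, ?_⟩
  · have h6 : eva (iot Z1) * eva Zi = 1 := by rw [← map_mul, hZi, map_one]
    rw [eva_iot] at h6
    have h7 : eva (C X) = 0 := by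
      simp [eva]
    simp only [map_add, map_mul, map_sub, map_one, eva_X, h1, h7]
    linear_combination (1 - X) * h6
  · have h6 : constantCoeff (iot Z1) * constantCoeff Zi = 1 := by rw [← map_mul, hZi, map_one]
    rw [cc_iot, hcZ, map_one, one_mul] at h6
    have h7 : constantCoeff p * constantCoeff pinv = 1 := by rw [← map_mul, hpinv, map_one]
    rw [h2, one_mul] at h7
    simp only [map_add, map_mul, map_sub, map_one, constantCoeff_X, constantCoeff_C, h2, h6, h7]
    intro h8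
    have h9 : (X : PowerSeries ℤ) * constantCoeff p' = 0 := by linear_combination h8
    rcases mul_eq_zero.1 h9 with h10 | h10
    · exact PowerSeries.X_ne_zero h10
    · have h11 := congrArg eva hpp
      rw [map_add, map_one, map_mul, eva_X, h1, Z1] at h11
      have h12 : P1 0 = eva p' := by
        have h13 : (X : PowerSeries ℤ) * P1 0 = X * eva p' := by linear_combination h11
        exact mul_left_cancel₀ PowerSeries.X_ne_zero h13
      have h14 := congrArg constantCoeff h12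
      have h15 : constantCoeff (eva p') = constantCoeff (constantCoeff p') := by
        rw [eva, ← coeff_zero_eq_constantCoeff_apply, coeff_map, coeff_zero_eq_constantCoeff_apply]
      rw [h15, h10] at h14
      simp [P1, gf, cnt] at h14

theorem Z1_eq_Z3 : Z1 = Z3 := by
  obtain ⟨zt, Y, h1, h2, h3, h4, h5⟩ := T1Y
  obtain ⟨Y', k1, k2, k3⟩ := T3Y zt h4
  exact link zt Y Y' Z1 Z3 h1 k1 h2 k2 (by simp [Z1]) h5 h3 k3

theorem Z3_eq_Z4 : Z3 = Z4 := by
  have h4 : eva (1 + C X) = 1 := by simp [eva]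
  obtain ⟨Y, h1, h2, h3⟩ := T3Y (1 + C X) h4
  obtain ⟨Y', k1, k2, k3⟩ := T4Y (1 + C X) h4
  refine link (1 + C X) Y Y' Z3 Z4 h1 k1 h2 k2 (by simp [Z3]) ?_ h3 k3
  simp

theorem gf_eq_of_Z {f g : PowerSeries ℤ} (h : 1 + X * f = 1 + X * g) : f = g := by
  have h13 : (X : PowerSeries ℤ) * f = X * g := by linear_combination h
  exact mul_left_cancel₀ PowerSeries.X_ne_zero h13

/-- **the three trees have the same numbers of nodes** -/
theorem cnt_eq (n : ℕ) : cnt ch1 n ([], 0) = cnt ch3 n (0, [true]) ∧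
    cnt ch3 n (0, [true]) = cnt ch4 n (1, true, []) := by
  have h1 : gf ch1 ([], 0) = gf ch3 (0, [true]) := gf_eq_of_Z Z1_eq_Z3
  have h2 : gf ch3 (0, [true]) = gf ch4 (1, true, []) := gf_eq_of_Z Z3_eq_Z4
  have h3 := congrArg (coeff n) h1
  have h4 := congrArg (coeff n) h2
  simp only [gf, coeff_mk] at h3 h4
  exact ⟨by exact_mod_cast h3, by exact_mod_cast h4⟩

end Pool.Agent.T9h72.Fish
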