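import Pool.Agent.T9h72.Fish.Alg0

set_option autoImplicit false

/-! The functional equation of the tree `ch1`. -/

namespace Pool.Agent.T9h72.Fish.T1

open PowerSeries Finset

theorem gf_unique_on {S : Type} (ch : S → List S) (I : S → Prop)
    (hI : ∀ s, I s → ∀ c ∈ ch s, I c) (c y y' : S → PowerSeries ℤ)
    (h : ∀ s, I s → y s = c s + X * ((ch s).map y).sum)
    (h' : ∀ s, I s → y' s = c s + X * ((ch s).map y').sum)
    (s : S) (hs : I s) : y s = y' s := by
  have key : ∀ n s, I s → coeff n (y s) = coeff n (y' s) := by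
    intro n
    induction n with
    | zero =>
      intro s hs
      rw [h s hs, h' s hs]
      simp
    | succ n ih =>
      intro s hs
      rw [h s hs, h' s hs, map_add, map_add, coeff_succ_X_mul, coeff_succ_X_mul, coeff_sum_list,
        coeff_sum_list]
      congr 2
      apply List.map_congr_left
      intro a ha
      exact ih a (hI s hs a ha)
  ext n
  exact key n s hs

/-- all blocks are positive -/
def Pos1 (s : List ℕ × ℕ) : Prop := ∀ b ∈ s.1, 0 < b

theorem pos_push (p : ℕ) (σ : List ℕ) (h : ∀ b ∈ σ, 0 < b) : ∀ b ∈ push1 p σ, 0 < b := by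
  unfold push1
  split_ifs with hp
  · exact h
  · intro b hb
    rw [List.mem_cons] at hb
    rcases hb with rfl | hb
    · omega
    · exact h b hb

theorem pos_low (σ : List ℕ) (h : ∀ b ∈ σ, 0 < b) : ∀ c ∈ low1 σ, Pos1 c := by
  induction σ with
  | nil => simp [low1]
  | cons b σ ih =>
    intro c hc
    have h' : ∀ b ∈ σ, 0 < b := fun b hb => h b (List.mem_cons_of_mem _ hb)
    rw [low1, List.mem_append, List.mem_map] at hc
    rcases hc with ⟨p, _, rfl⟩ | hc
    · exact pos_push p σ h'
    · exact ih h' c hc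

theorem pos_ch1 (s : List ℕ × ℕ) (hs : Pos1 s) : ∀ c ∈ ch1 s, Pos1 c := by
  obtain ⟨σ, u⟩ := s
  intro c hc
  unfold ch1 at hc
  simp only [List.cons_append, List.mem_cons, List.mem_append, List.mem_map] at hc
  rcases hc with rfl | rfl | ⟨i, _, rfl⟩ | hc
  · exact hs
  · exact hs
  · intro b hb
    simp only [List.mem_cons] at hb
    rcases hb with rfl | hb
    · omega
    · exact hs b hb
  · cases σ with
    | nil => simp [blk1] at hc
    | cons b σ =>
      have h' : ∀ b ∈ σ, 0 < b := fun b hb => hs b (List.mem_cons_of_mem _ hb)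
      rw [blk1, List.mem_append, List.mem_map] at hc
      rcases hc with ⟨p, _, rfl⟩ | hc
      · exact pos_push p σ h'
      · exact pos_low σ h' c hc

/-- indicator of the empty stack -/
noncomputable def del (s : List ℕ × ℕ) : PowerSeries ℤ := if s.1 = [] then 1 else 0

theorem del_range (b : ℕ) (hb : 0 < b) (σ : List ℕ) (g : ℕ → ℕ) :
    (((List.range b).map (fun p => (push1 p σ, g p))).map del).sum
      = if σ = [] then 1 else 0 := by
  rw [List.map_map]
  by_cases hσ : σ = []
  · rw [if_pos hσ]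
    obtain ⟨b, rfl⟩ : ∃ b', b = b' + 1 := ⟨b - 1, by omega⟩
    rw [List.range_succ_eq_map, List.map_cons, List.map_map, List.sum_cons]
    have h1 : (List.map ((del ∘ fun p => (push1 p σ, g p)) ∘ Nat.succ) (List.range b)).sum = 0 := by
      apply List.sum_eq_zero
      intro x hx
      rw [List.mem_map] at hx
      obtain ⟨p, _, rfl⟩ := hx
      simp [del, push1]
    rw [h1]
    simp [del, push1, hσ]
  · rw [if_neg hσ]
    apply List.sum_eq_zero
    intro x hx
    rw [List.mem_map] at hx
    obtain ⟨p, _, rfl⟩ := hx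
    by_cases hp : p = 0
    · simp [del, push1, hp, hσ]
    · simp [del, push1, hp]

theorem del_low (σ : List ℕ) (h : ∀ b ∈ σ, 0 < b) :
    ((low1 σ).map del).sum = if σ = [] then 0 else 1 := by
  induction σ with
  | nil => simp [low1]
  | cons b σ ih =>
    rw [low1, List.map_append, List.sum_append, del_range b (h b (by simp)) σ (fun p => b - p),
      ih (fun b hb => h b (List.mem_cons_of_mem _ hb))]
    by_cases hσ : σ = [] <;> simp [hσ]

theorem del_blk (σ : List ℕ) (h : ∀ b ∈ σ, 0 < b) :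
    ((blk1 σ).map del).sum = if σ = [] then 0 else 1 := by
  cases σ with
  | nil => simp [blk1]
  | cons b σ =>
    rw [blk1, List.map_append, List.sum_append, del_range b (h b (by simp)) σ (fun p => b - p + 1),
      del_low σ (fun b hb => h b (List.mem_cons_of_mem _ hb))]
    by_cases hσ : σ = [] <;> simp [hσ]

theorem del_ch1 (s : List ℕ × ℕ) (hs : Pos1 s) :
    ((ch1 s).map del).sum = 1 + del s := by
  obtain ⟨σ, u⟩ := s
  unfold ch1
  simp only [List.cons_append, List.map_cons, List.sum_cons, List.map_append, List.sum_append]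
  rw [del_blk σ hs]
  have h1 : (List.map del ((List.range u).map (fun i => ((i + 1) :: σ, u - (i + 1))))).sum = 0 := by
    apply List.sum_eq_zero
    intro x hx
    rw [List.map_map, List.mem_map] at hx
    obtain ⟨p, _, rfl⟩ := hx
    simp [del]
  rw [h1]
  by_cases hσ : σ = []
  · simp [del, hσ]
  · simp [del, hσ]

/-- append blocks at the bottom -/
def app1 (σ : List ℕ) (s : List ℕ × ℕ) : List ℕ × ℕ := (s.1 ++ σ, s.2)

theorem push1_append (p : ℕ) (τ σ : List ℕ) : push1 p (τ ++ σ) = push1 p τ ++ σ := by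
  unfold push1
  split_ifs <;> simp

theorem low1_append (τ σ : List ℕ) : low1 (τ ++ σ) = (low1 τ).map (app1 σ) ++ low1 σ := by
  induction τ with
  | nil => simp [low1]
  | cons b τ ih =>
    rw [List.cons_append, low1, ih, low1, List.map_append, List.append_assoc, List.map_map]
    congr 1
    apply List.map_congr_left
    intro p _
    simp [app1, push1_append]

theorem blk1_append (τ σ : List ℕ) :
    blk1 (τ ++ σ) = (blk1 τ).map (app1 σ) ++ (if τ = [] then blk1 σ else low1 σ) := by
  cases τ with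
  | nil => simp [blk1]
  | cons b τ =>
    rw [List.cons_append, blk1, low1_append, blk1, List.map_append, List.append_assoc, List.map_map,
      if_neg (by simp)]
    congr 1
    apply List.map_congr_left
    intro p _
    simp [app1, push1_append]

theorem ch1_append (σ : List ℕ) (s : List ℕ × ℕ) :
    ch1 (app1 σ s) = (ch1 s).map (app1 σ) ++ (if s.1 = [] then blk1 σ else low1 σ) := by
  obtain ⟨τ, u⟩ := s
  unfold ch1
  simp only [app1]
  rw [blk1_append]
  simp only [List.cons_append, List.map_cons, List.map_append, List.map_map, List.append_assoc]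
  congr 1

noncomputable def D0 (σ : List ℕ) : PowerSeries ℤ := ((low1 σ).map (gf ch1)).sum
noncomputable def Dp (σ : List ℕ) : PowerSeries ℤ := ((blk1 σ).map (gf ch1)).sum

/-- `1 / (1 - x)` -/
noncomputable def gx : PowerSeries ℤ := PowerSeries.mk 1

theorem gx_mul : gx * (1 - X) = 1 := PowerSeries.mk_one_mul_one_sub_eq_one _

theorem lifting (σ : List ℕ) (s : List ℕ × ℕ) (hs : Pos1 s) :
    gf ch1 (app1 σ s) = gf ch1 s * (1 + X * D0 σ)
      + X * (gx * (del s + X * gf ch1 s)) * (Dp σ - D0 σ) := by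
  refine gf_unique_on ch1 Pos1 pos_ch1
    (fun s => 1 + X * D0 σ + X * (Dp σ - D0 σ) * del s) (fun s => gf ch1 (app1 σ s))
    (fun s => gf ch1 s * (1 + X * D0 σ) + X * (gx * (del s + X * gf ch1 s)) * (Dp σ - D0 σ))
    ?_ ?_ s hs
  · intro s _
    rw [gf_rec, ch1_append, List.map_append, List.sum_append, List.map_map]
    have h1 : (List.map (gf ch1) (if s.1 = [] then blk1 σ else low1 σ)).sum
        = D0 σ + (Dp σ - D0 σ) * del s := by
      by_cases h : s.1 = []
      · simp [h, del, Dp]
      · simp [h, del, D0]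
    rw [h1]
    simp only [Function.comp_def]
    ring
  · intro s hs
    have h1 := del_ch1 s hs
    have h2 := gf_rec ch1 s
    have h3 : ((ch1 s).map (fun s => gf ch1 s * (1 + X * D0 σ)
        + X * (gx * (del s + X * gf ch1 s)) * (Dp σ - D0 σ))).sum
        = ((ch1 s).map (gf ch1)).sum * (1 + X * D0 σ)
        + X * (gx * (((ch1 s).map del).sum + X * ((ch1 s).map (gf ch1)).sum)) * (Dp σ - D0 σ) := by
      generalize ch1 s = L
      induction L with
      | nil => simp
      | cons c L ih =>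
        rw [List.map_cons, List.sum_cons, ih]
        simp only [List.map_cons, List.sum_cons]
        ring
    rw [h3, h1]
    have h4 := gx_mul
    generalize gf ch1 s = f at *
    generalize ((ch1 s).map (gf ch1)).sum = F at *
    generalize D0 σ = d at *
    generalize Dp σ = e at *
    generalize del s = w at *
    linear_combination ((1 + X * d) + X * gx * X * (e - d)) * h2 + (X * (e - d) * w) * h4

noncomputable def P1 (u : ℕ) : PowerSeries ℤ := gf ch1 ([], u)

noncomputable def Qs (q w : ℕ) : PowerSeries ℤ := gf ch1 (push1 q [], w)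

theorem Qs_zero (w : ℕ) : Qs 0 w = P1 w := rfl

theorem sum_map_range1 (f : ℕ → PowerSeries ℤ) (n : ℕ) :
    ((List.range n).map f).sum = ∑ i ∈ Finset.range n, f i := by
  induction n with
  | zero => simp
  | succ n ih => rw [List.range_succ, List.map_append, List.sum_append, ih, Finset.sum_range_succ]; simp

noncomputable def d0 (i : ℕ) : PowerSeries ℤ := ∑ p ∈ Finset.range i, Qs p (i - p)
noncomputable def dp (i : ℕ) : PowerSeries ℤ := ∑ p ∈ Finset.range i, Qs p (i - p + 1)

noncomputable def B1 (i : ℕ) : PowerSeries ℤ := X * gx * (dp i - d0 i)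
noncomputable def A1 (i : ℕ) : PowerSeries ℤ := 1 + X * d0 i + X * B1 i

theorem Qs_eq (i w : ℕ) : Qs i w = A1 i * P1 w + B1 i := by
  cases i with
  | zero => simp [Qs_zero, A1, B1, d0, dp]
  | succ i =>
    have h1 := lifting [i + 1] ([], w) (by simp [Pos1])
    have h2 : D0 [i + 1] = d0 (i + 1) := by
      rw [D0, low1, low1, List.append_nil, List.map_map, d0, ← sum_map_range1]
      rfl
    have h3 : Dp [i + 1] = dp (i + 1) := by
      rw [Dp, blk1, low1, List.append_nil, List.map_map, dp, ← sum_map_range1]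
      rfl
    have h4 : Qs (i + 1) w = gf ch1 (app1 [i + 1] ([], w)) := by
      simp [Qs, push1, app1]
    have h5 : del ([], w) = 1 := by simp [del]
    rw [h4, h1, h2, h3, h5, A1, B1, P1]
    ring

theorem P1_rec (u : ℕ) :
    P1 u = 1 + X * (P1 u + P1 1 + ∑ i ∈ Finset.range u, Qs (i + 1) (u - (i + 1))) := by
  have h1 : P1 u = 1 + X * ((ch1 ([], u)).map (gf ch1)).sum := gf_rec ch1 ([], u)
  rw [← sum_map_range1]
  conv_lhs => rw [h1]
  congr 2
  unfold ch1
  simp only [blk1, List.append_nil, List.map_cons, List.sum_cons, List.map_map]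
  rw [← add_assoc]
  rfl

/-- `x Σ_{q ≤ i} Q(q; i - q) = P_i - (1 - x) f` -/
theorem conv_eq (i : ℕ) :
    X * ∑ q ∈ Finset.range (i + 1), Qs q (i - q) = P1 i - (1 - X) * P1 0 := by
  have h1 := P1_rec i
  have h2 := P1_rec 0
  rw [Finset.sum_range_succ', Nat.sub_zero, Qs_zero]
  rw [Finset.range_zero, Finset.sum_empty, add_zero] at h2
  linear_combination h2 - h1

theorem d0_eq (i : ℕ) : d0 i + Qs i 0 = ∑ q ∈ Finset.range (i + 1), Qs q (i - q) := by
  rw [Finset.sum_range_succ, Nat.sub_self, d0]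

theorem dp_eq (i : ℕ) :
    dp i + Qs i 1 + Qs (i + 1) 0 = ∑ q ∈ Finset.range (i + 1 + 1), Qs q (i + 1 - q) := by
  rw [Finset.sum_range_succ, Finset.sum_range_succ, Nat.sub_self, dp, Nat.add_sub_cancel_left]
  congr 2
  apply Finset.sum_congr rfl
  intro p hp
  rw [Finset.mem_range] at hp
  congr 1
  omega

noncomputable def k1 : PowerSeries ℤ := 1 - (1 - X) * P1 0
noncomputable def Z1 : PowerSeries ℤ := 1 + X * P1 0

theorem rel1 (i : ℕ) : Z1 * A1 i = P1 i + k1 := by
  have h1 := conv_eq i
  rw [← d0_eq, Qs_eq] at h1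
  have h2 : A1 i = 1 + X * d0 i + X * B1 i := rfl
  rw [Z1, k1]
  linear_combination h1 + h2

theorem rel2 (i : ℕ) :
    Z1 * (X * B1 (i + 1) + (1 - X) * B1 i) = P1 (i + 1) - (1 - X) * P1 0 * P1 i + k1 ^ 2 := by
  have h1 := conv_eq (i + 1)
  rw [← dp_eq, Qs_eq, Qs_eq] at h1
  have h2 : A1 i = 1 + X * d0 i + X * B1 i := rfl
  have h3 : (1 - X) * B1 i = X * (dp i - d0 i) := by
    have := gx_mul
    rw [B1]
    linear_combination X * (dp i - d0 i) * this
  have h4 := P1_rec 0
  rw [Finset.range_zero, Finset.sum_empty, add_zero] at h4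
  have h5 := rel1 i
  have h6 := rel1 (i + 1)
  have h7 : X * B1 (i + 1) + (1 - X) * B1 i = A1 (i + 1) - (1 - X) * P1 0 * A1 i := by
    have h6' : A1 (i + 1) = P1 (i + 1) + k1 - X * P1 0 * A1 (i + 1) := by
      rw [Z1] at h6
      linear_combination h6
    rw [k1] at h6'
    linear_combination h1 + h3 + h2 - h6' + A1 i * h4
  rw [h7]
  have h8 : k1 = 1 - (1 - X) * P1 0 := rfl
  linear_combination h6 - (1 - X) * P1 0 * h5 - k1 * h8

noncomputable def Pt : PowerSeries (PowerSeries ℤ) := PowerSeries.mk P1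
noncomputable def At : PowerSeries (PowerSeries ℤ) := PowerSeries.mk A1
noncomputable def Bt : PowerSeries (PowerSeries ℤ) := PowerSeries.mk B1
noncomputable def gt : PowerSeries (PowerSeries ℤ) := PowerSeries.mk 1

theorem gt_mul : gt * (1 - X) = 1 := PowerSeries.mk_one_mul_one_sub_eq_one _

theorem coeff_gt (n : ℕ) : coeff n gt = 1 := by simp [gt]

theorem relI : (1 - C X) * (Pt - C (P1 0) * gt) = C X * (At * Pt + Bt * gt - Pt) := by
  ext1 u
  have h0 : (1 - C X : PowerSeries (PowerSeries ℤ)) = C (1 - X) := by simp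
  rw [h0, PowerSeries.coeff_C_mul, PowerSeries.coeff_C_mul, map_sub, map_sub, map_add,
    PowerSeries.coeff_C_mul, coeff_gt, PowerSeries.coeff_mul, PowerSeries.coeff_mul,
    Finset.Nat.sum_antidiagonal_eq_sum_range_succ_mk,
    Finset.Nat.sum_antidiagonal_eq_sum_range_succ_mk, ← Finset.sum_add_distrib]
  simp only [coeff_gt, Pt, At, Bt, coeff_mk]
  have h1 := conv_eq u
  have h2 : ∑ q ∈ Finset.range (u + 1), Qs q (u - q)
      = ∑ q ∈ Finset.range (u + 1), (A1 q * P1 (u - q) + B1 q * 1) := by
    apply Finset.sum_congr rfl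
    intro q _
    rw [Qs_eq, mul_one]
  rw [← h2]
  linear_combination (-1 : PowerSeries ℤ) * h1

theorem relII : C Z1 * At = Pt + C k1 * gt := by
  ext1 i
  rw [PowerSeries.coeff_C_mul, map_add, PowerSeries.coeff_C_mul, coeff_gt]
  simp only [Pt, At, coeff_mk]
  rw [rel1]
  ring

theorem relIII : C Z1 * (C X * Bt + (1 - C X) * X * Bt)
    = Pt - C (P1 0) - (1 - C X) * C (P1 0) * X * Pt + C k1 ^ 2 * X * gt := by
  have h0 : (1 - C X : PowerSeries (PowerSeries ℤ)) = C (1 - X) := by simp
  ext1 u
  cases u with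
  | zero =>
    rw [h0]
    simp [Pt, Bt, B1, d0, dp]
  | succ u =>
    have e1 : C Z1 * (C X * Bt + (1 - C X) * X * Bt) = C Z1 * (C X * Bt + C (1 - X) * (X * Bt)) := by
      rw [h0]; ring
    have e2 : Pt - C (P1 0) - (1 - C X) * C (P1 0) * X * Pt + C k1 ^ 2 * X * gt
        = Pt - C (P1 0) - C ((1 - X) * P1 0) * (X * Pt) + C (k1 ^ 2) * (X * gt) := by
      rw [h0, map_mul, map_pow]; ring
    rw [e1, e2]
    have h3 : coeff (u + 1) (C (P1 0)) = (0 : PowerSeries ℤ) := by
      rw [PowerSeries.coeff_C, if_neg (by omega)]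
    rw [PowerSeries.coeff_C_mul, map_add, PowerSeries.coeff_C_mul, PowerSeries.coeff_C_mul,
      PowerSeries.coeff_succ_X_mul, map_add, map_sub, map_sub, h3, PowerSeries.coeff_C_mul,
      PowerSeries.coeff_C_mul, PowerSeries.coeff_succ_X_mul, PowerSeries.coeff_succ_X_mul, coeff_gt]
    simp only [Pt, Bt, coeff_mk]
    rw [rel2]
    ring

theorem alg1 {K : Type} [CommRing K] (x t g P A B f k Z : K) (hg : g * (1 - t) = 1)
    (hk : k = 1 - (1 - x) * f) (hZ : Z = 1 + x * f)
    (h1 : (1 - x) * (P - f * g) = x * (A * P + B * g - P)) (h2 : Z * A = P + k * g)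
    (h3 : Z * (x * B + (1 - x) * t * B) = P - f - (1 - x) * f * t * P + k ^ 2 * t * g) :
    x * (x + (1 - x) * t) * ((1 - t) * P + k) ^ 2
      - Z * (1 - t) * (x ^ 2 + (1 - x) * t) * ((1 - t) * P + k)
      + (1 - x) * t * (1 - t) * Z = 0 := by
  obtain ⟨p, hp⟩ : ∃ p, p = (1 - t) * P + k := ⟨_, rfl⟩
  rw [← hp]
  have hkf : k + f = Z := by rw [hk, hZ]; ring
  have e2 : Z * A * (1 - t) = p := by
    linear_combination (1 - t) * h2 - hp + k * hg
  have e3 : Z * (x + (1 - x) * t) * (1 - t) * B = p * (1 - t + k * t) - Z * (1 - t) := by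
    have hk' : (1 - x) * f = 1 - k := by linear_combination hk
    linear_combination (1 - t) * h3 - (1 + (-(1 - x) * f * t)) * hp + k ^ 2 * t * hg
      + (-(1 - t) * hkf) + (-(t * (p - k))) * hk'
  have e1 : (1 - x) * (1 - t) * Z * (p - Z) = x * (p * (p - k) + Z * (1 - t) * B
      - Z * (1 - t) * (p - k)) := by
    linear_combination (1 - t) ^ 2 * Z * h1 + (1 - x) * (1 - t) * Z * hp
      + (1 - x) * (1 - t) * Z * hkf + f * (1 - x) * (1 - t) * Z * hg
      - x * (p * hp - (1 - t) * P * e2 - Z * (1 - t) * B * hg - Z * (1 - t) * hp)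
  have hxk : x * k = 1 - (1 - x) * Z := by rw [hk, hZ]; ring
  linear_combination (-(x + (1 - x) * t)) * e1 - x * e3
    + ((x + (1 - x) * t - t) * p - (x + (1 - x) * t) * Z * (1 - t)) * hxk

/-- the catalytic generating function of the tree `ch1` -/
noncomputable def Pi1 : PowerSeries (PowerSeries ℤ) := (1 - X) * Pt + C k1

theorem quad1 : C X * (C X + (1 - C X) * X) * Pi1 ^ 2
      - C Z1 * (1 - X) * (C X ^ 2 + (1 - C X) * X) * Pi1
      + (1 - C X) * X * (1 - X) * C Z1 = 0 := by
  refine alg1 (C X) X gt Pt At Bt (C (P1 0)) (C k1) (C Z1) gt_mul ?_ ?_ relI ?_ ?_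
  · rw [k1]; simp
  · rw [Z1]; simp
  · rw [relII]
  · rw [relIII]

end Pool.Agent.T9h72.Fish.T1
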