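import Pool.Agent.T9h72.Fish.Defs

set_option autoImplicit false

/-! Generic generating trees: insertion of a new maximum. -/

namespace Pool.Agent.T9h72.Fish

open List

/-- all splittings `l = A ++ B`, from left to right -/
def splits : List ℕ → List (List ℕ × List ℕ)
  | [] => [([], [])]
  | x :: l => ([], x :: l) :: (splits l).map (fun s => (x :: s.1, s.2))

theorem mem_splits (l : List ℕ) (s : List ℕ × List ℕ) : s ∈ splits l ↔ s.1 ++ s.2 = l := by
  induction l generalizing s with
  | nil =>
    obtain ⟨A, B⟩ := s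
    simp [splits]
  | cons x l ih =>
    obtain ⟨A, B⟩ := s
    rw [splits, mem_cons, mem_map]
    constructor
    · rintro (h | ⟨t, ht, h⟩)
      · simp only [Prod.mk.injEq] at h
        simp [h.1, h.2]
      · simp only [Prod.mk.injEq] at h
        rw [ih] at ht
        simp [← h.1, ← h.2, ht]
    · intro h
      cases A with
      | nil => left; simpa using h
      | cons a A =>
        right
        simp only [cons_append, cons.injEq] at h
        exact ⟨(A, B), (ih _).2 h.2, by simp [h.1]⟩

theorem splits_append (l₁ l₂ : List ℕ) (x : ℕ) :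
    splits (l₁ ++ x :: l₂) = (splits l₁).map (fun s => (s.1, s.2 ++ x :: l₂))
      ++ (splits l₂).map (fun s => (l₁ ++ x :: s.1, s.2)) := by
  induction l₁ with
  | nil => simp [splits]
  | cons a l₁ ih =>
    rw [cons_append, splits, ih, splits]
    simp [Function.comp_def]

theorem splits_nodup (l : List ℕ) : (splits l).Nodup := by
  induction l with
  | nil => simp [splits]
  | cons x l ih =>
    rw [splits, nodup_cons]
    refine ⟨?_, ih.map ?_⟩
    · simp
    · rintro ⟨A, B⟩ ⟨A', B'⟩ h
      simp only [Prod.mk.injEq, cons.injEq, true_and] at h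
      simp [h.1, h.2]

open Classical in
/-- the children of `l`: the new maximum `l.length` is inserted at the sites allowed by `V` -/
noncomputable def kids (V : List ℕ → List ℕ → Prop) (l : List ℕ) : List (List ℕ) :=
  ((splits l).filter (fun s => decide (V s.1 s.2))).map (fun s => s.1 ++ l.length :: s.2)

theorem mem_kids (V : List ℕ → List ℕ → Prop) (l l' : List ℕ) :
    l' ∈ kids V l ↔ ∃ A B, A ++ B = l ∧ V A B ∧ l' = A ++ l.length :: B := by
  unfold kids
  rw [mem_map]
  constructor
  · rintro ⟨⟨A, B⟩, h1, h2⟩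
    rw [mem_filter, mem_splits] at h1
    exact ⟨A, B, h1.1, by simpa using h1.2, h2.symm⟩
  · rintro ⟨A, B, h1, h2, h3⟩
    refine ⟨(A, B), ?_, h3.symm⟩
    rw [mem_filter, mem_splits]
    exact ⟨h1, by simpa using h2⟩

/-- descendants at depth `n` -/
noncomputable def desc (V : List ℕ → List ℕ → Prop) : ℕ → List ℕ → List (List ℕ)
  | 0, l => [l]
  | n + 1, l => (kids V l).flatMap (desc V n)

theorem desc_succ' (V : List ℕ → List ℕ → Prop) (n : ℕ) (l : List ℕ) :
    desc V (n + 1) l = (desc V n l).flatMap (kids V) := by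
  induction n generalizing l with
  | zero => simp [desc]
  | succ n ih =>
    rw [desc]
    conv_rhs => rw [desc]
    rw [List.flatMap_assoc]
    congr 1
    ext1 l'
    exact ih l'

theorem length_desc {S : Type} (V : List ℕ → List ℕ → Prop) (ch : S → List S)
    (C : ℕ → List ℕ → Prop) (Rep : List ℕ → S → Prop)
    (hC : ∀ n l l', C n l → l' ∈ kids V l → C (n + 1) l')
    (hk : ∀ n l s, C n l → Rep l s → ∃ L, L.Perm (kids V l) ∧ Forall₂ Rep L (ch s))
    (n k : ℕ) (l : List ℕ) (s : S) (h1 : C k l) (h2 : Rep l s) :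
    (desc V n l).length = cnt ch n s := by
  induction n generalizing k l s with
  | zero => simp [desc, cnt]
  | succ n ih =>
    obtain ⟨L, hL, hF⟩ := hk k l s h1 h2
    rw [desc, cnt, length_flatMap, ((hL.map (fun a => (desc V n a).length)).sum_eq).symm]
    have hLC : ∀ a ∈ L, C (k + 1) a := fun a ha => hC k l a h1 ((hL.mem_iff).1 ha)
    clear hL
    generalize ch s = cs at hF
    induction hF with
    | nil => rfl
    | cons h3 h4 ih2 =>
      rw [map_cons, map_cons, sum_cons, sum_cons, ih2 (fun a ha => hLC a (mem_cons_of_mem _ ha)),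
        ih (k + 1) _ _ (hLC _ mem_cons_self) h3]

theorem eq_of_insert (N : ℕ) (A B A' B' : List ℕ) (h : A ++ N :: B = A' ++ N :: B')
    (hA : N ∉ A ++ B) (hA' : N ∉ A' ++ B') : A = A' ∧ B = B' := by
  have h1 := List.append_eq_append_iff.1 h
  rcases h1 with ⟨C, h2, h3⟩ | ⟨C, h2, h3⟩
  · cases C with
    | nil => simp at h2 h3; exact ⟨h2.symm, h3⟩
    | cons c C =>
      simp only [cons_append, cons.injEq] at h3
      exfalso
      apply hA'
      rw [h2, ← h3.1]
      simp
  · cases C with
    | nil => simp at h2 h3; exact ⟨h2, h3.symm⟩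
    | cons c C =>
      simp only [cons_append, cons.injEq] at h3
      exfalso
      apply hA
      rw [h2, ← h3.1]
      simp

theorem not_mem_of_perm {n : ℕ} {l : List ℕ} (h : l.Perm (range (n + 1))) : n + 1 ∉ l := by
  rw [h.mem_iff]
  simp

theorem perm_insert {n : ℕ} {A B : List ℕ} :
    (A ++ (n + 1) :: B).Perm (range (n + 1 + 1)) ↔ (A ++ B).Perm (range (n + 1)) := by
  rw [List.range_succ (n := n + 1)]
  constructor
  · intro h
    have h2 : ((n + 1) :: (A ++ B)).Perm ((n + 1) :: range (n + 1)) :=
      (List.perm_middle.symm.trans h).trans (List.perm_append_comm)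
    exact h2.cons_inv
  · intro h
    exact (List.perm_middle.trans (h.cons (n + 1))).trans (List.perm_append_comm (l₂ := [n + 1])).symm

theorem mem_desc (P : List ℕ → Prop) (V : List ℕ → List ℕ → Prop) (h0 : P [0])
    (hV : ∀ n A B, (A ++ B).Perm (range (n + 1)) →
      (P (A ++ (n + 1) :: B) ↔ P (A ++ B) ∧ V A B)) (n : ℕ) (l : List ℕ) :
    l ∈ desc V n [0] ↔ l.Perm (range (n + 1)) ∧ P l := by
  induction n generalizing l with
  | zero =>
    simp only [desc, mem_singleton, zero_add, range_one, perm_singleton]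
    constructor
    · rintro rfl; exact ⟨rfl, h0⟩
    · rintro ⟨h, _⟩; exact h
  | succ n ih =>
    rw [desc_succ', mem_flatMap]
    constructor
    · rintro ⟨l', h1, h2⟩
      rw [ih] at h1
      obtain ⟨A, B, h3, h4, h5⟩ := (mem_kids V l' l).1 h2
      have h6 : l'.length = n + 1 := by rw [h1.1.length_eq, length_range]
      rw [h6] at h5
      subst h5
      rw [← h3] at h1
      exact ⟨perm_insert.2 h1.1, (hV n A B h1.1).2 ⟨h1.2, h4⟩⟩
    · rintro ⟨h1, h2⟩
      have h3 : n + 1 ∈ l := by rw [h1.mem_iff]; simp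
      obtain ⟨A, B, rfl⟩ := List.append_of_mem h3
      have h4 := perm_insert.1 h1
      have h5 := (hV n A B h4).1 h2
      refine ⟨A ++ B, (ih _).2 ⟨h4, h5.1⟩, (mem_kids _ _ _).2 ⟨A, B, rfl, h5.2, ?_⟩⟩
      rw [h4.length_eq, length_range]

theorem nodup_desc (P : List ℕ → Prop) (V : List ℕ → List ℕ → Prop) (h0 : P [0])
    (hV : ∀ n A B, (A ++ B).Perm (range (n + 1)) →
      (P (A ++ (n + 1) :: B) ↔ P (A ++ B) ∧ V A B)) (n : ℕ) :
    (desc V n [0]).Nodup := by
  induction n with
  | zero => simp [desc]
  | succ n ih =>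
    rw [desc_succ', nodup_flatMap]
    constructor
    · intro l hl
      rw [mem_desc P V h0 hV] at hl
      have h6 : l.length = n + 1 := by rw [hl.1.length_eq, length_range]
      unfold kids
      rw [h6]
      apply Nodup.map_on _ ((splits_nodup l).filter _)
      rintro ⟨A, B⟩ h1 ⟨A', B'⟩ h2 h3
      rw [mem_filter, mem_splits] at h1 h2
      have h7 := eq_of_insert (n + 1) A B A' B' h3
        (by rw [show A ++ B = l from h1.1]; exact not_mem_of_perm hl.1)
        (by rw [show A' ++ B' = l from h2.1]; exact not_mem_of_perm hl.1)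
      rw [h7.1, h7.2]
    · apply List.Nodup.pairwise_of_forall_ne ih
      intro l hl l' hl' hne
      rw [Function.onFun, List.disjoint_left]
      intro t h1 h2
      apply hne
      rw [mem_desc P V h0 hV] at hl hl'
      have h6 : l.length = n + 1 := by rw [hl.1.length_eq, length_range]
      have h6' : l'.length = n + 1 := by rw [hl'.1.length_eq, length_range]
      obtain ⟨A, B, rfl, h4, h5⟩ := (mem_kids V _ _).1 h1
      obtain ⟨A', B', rfl, h4', h5'⟩ := (mem_kids V _ _).1 h2
      rw [h6] at h5
      rw [h6'] at h5'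
      have h7 := eq_of_insert (n + 1) A B A' B' (h5.symm.trans h5') (not_mem_of_perm hl.1)
        (not_mem_of_perm hl'.1)
      rw [h7.1, h7.2]

/-- **Generating trees**: the class `P` is generated by insertions of the maximum at the sites allowed
by `V`, and the relation `Rep` between lists and states is compatible with the children. -/
theorem ncard_tree {S : Type} (P : List ℕ → Prop) (V : List ℕ → List ℕ → Prop) (ch : S → List S)
    (Rep : List ℕ → S → Prop) (root : S) (h0 : P [0])
    (hV : ∀ n A B, (A ++ B).Perm (range (n + 1)) →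
      (P (A ++ (n + 1) :: B) ↔ P (A ++ B) ∧ V A B))
    (hr : Rep [0] root)
    (hk : ∀ n l s, l.Perm (range (n + 1)) → P l → Rep l s →
      ∃ L, L.Perm (kids V l) ∧ Forall₂ Rep L (ch s)) (n : ℕ) :
    {l : List ℕ | l.Perm (range (n + 1)) ∧ P l}.ncard = cnt ch n root := by
  have h1 : {l : List ℕ | l.Perm (range (n + 1)) ∧ P l} = ((desc V n [0]).toFinset : Set (List ℕ)) := by
    ext l
    rw [coe_toFinset, Set.mem_ofPred_eq, Set.mem_ofPred_eq, mem_desc P V h0 hV]
  rw [h1, Set.ncard_coe_finset, List.toFinset_card_of_nodup (nodup_desc P V h0 hV n)]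
  apply length_desc V ch (fun k l => l.Perm (range (k + 1)) ∧ P l) Rep _ _ n 0 [0] root _ hr
  · intro k l l' ⟨h2, h3⟩ h4
    obtain ⟨A, B, rfl, h5, h6⟩ := (mem_kids V _ _).1 h4
    have h7 : (A ++ B).length = k + 1 := by rw [h2.length_eq, length_range]
    rw [h7] at h6
    rw [h6]
    exact ⟨perm_insert.2 h2, (hV k A B h2).2 ⟨h3, h5⟩⟩
  · intro k l s ⟨h2, h3⟩ h4
    exact hk k l s h2 h3 h4
  · exact ⟨by simp, h0⟩

end Pool.Agent.T9h72.Fish
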